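import Pool.Agent.H984R4.HN.HPDefs
import Pool.Agent.H984R4.NP.Walk

/-!
Transfer of the results on the exploration path in rectangles to the exploration path in the
half-plane: definitions and statements.
-/

set_option autoImplicit false

namespace Pool.Agent.L0h89.HT

open H974 Finset H342P H984P MeasureTheory Filter Topology

/-- Reflection in the imaginary axis. -/
noncomputable def rf (z : ℂ) : ℂ := ⟨-z.re, z.im⟩

/-- The reflected dual edge. -/
def th (e : Edg) : Edg := bif e.2.2 then (-e.1, e.2.1, false) else (-e.1, e.2.1 + 1, true)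

/-- The open edges of the lattice rectangle `D` obtained from the coins `ω` of the half-plane. -/
noncomputable def fn (D : H984N.Dm) (ω : H984H.Conf) : Finset Edg :=
  D.edges.filter (fun e => ω (th e) = false)

/-- The square `(-ρ, ρ) × (0, ρ)` with the boundary points `i ρ` and `0`. -/
noncomputable def Sq (ρ : ℝ) (h : 0 < ρ) : H984N.Rect :=
  ⟨ρ, ρ, ρ, 0, h, h, h, by linarith, h⟩

/-- The mesh in the rectangle which corresponds to `n` steps in the half-plane. -/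
noncomputable def mesh (lam : ℝ) (n : ℕ) : ℝ := ((max n 1 : ℕ) : ℝ) ^ (-(4/7) : ℝ) / lam

/-- The curve of the half-plane is, until it reaches the distance `r` from `0`, within `η` of the
reflection and time reversal of the curve of the rectangle, scaled by `lam`. -/
def K (r lam η : ℝ) : Set (C(unitInterval, ℂ) × H984N.X) :=
  {q | ∀ s : unitInterval, (∀ u : unitInterval, u ≤ s → ‖q.1 u‖ < r) → ∃ u : unitInterval,
    |(u : ℝ) * (lam ^ (7/4 : ℝ) * q.2.2) + s - lam ^ (7/4 : ℝ) * q.2.2| ≤ η ∧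
    dist (q.1 s) ((lam : ℂ) * rf (q.2.1 u)) ≤ η}

/-- `f` is the reflection and time reversal of `p`, scaled by `lam`. -/
def Rev (lam : ℝ) (f : C(unitInterval, ℂ)) (p : H984N.X) : Prop :=
  0 < p.2 ∧ 1 ≤ lam ^ (7/4 : ℝ) * p.2 ∧ ∀ s u : unitInterval,
    (u : ℝ) = 1 - s / (lam ^ (7/4 : ℝ) * p.2) → f s = (lam : ℂ) * rf (p.1 u)

/-- Weak limits in a rectangle. -/
def IsLimN (R : H984N.Rect) (ν : ProbabilityMeasure H984N.X) : Prop :=
  ∃ δ : ℕ → ℝ, (∀ i, 0 < δ i) ∧ Tendsto δ atTop (𝓝 0) ∧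
    Tendsto (fun i => R.law (δ i)) atTop (𝓝 ν)

/-- A: the lattice coupling (checked numerically). -/
def S_CPL : Prop := ∀ (D : H984N.Dm), D.Ok → ∀ ρ : ℕ, 1 ≤ ρ → (ρ : ℤ) ≤ -D.l → (ρ : ℤ) ≤ D.r →
  (ρ : ℤ) ≤ D.h → ∀ (ω : H984H.Conf) (k : ℕ),
  (∀ j ≤ k, H984N.sd (H984H.path ω j).1 (0, 0) < (ρ : ℤ) - 1) →
  ∃ m : ℕ, m ≤ k ∧ k ≤ m + 4 * ρ ∧ m ≤ D.len (fn D ω) ∧
    dist (H984H.gam ω k) (rf (H984N.pos 1 (D.walk (fn D ω) (D.len (fn D ω) - m)))) ≤ 3

/-- B: the rescaled curves are close. -/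
def S_CLO : Prop := ∀ (ρ lam : ℝ) (hρ : 0 < ρ), 0 < lam → ∀ η : ℝ, 0 < η → ∃ N : ℕ,
  ∀ n ≥ N, ∀ ω : H984H.Conf,
    (H984H.curve n ω,
      ((Sq ρ hρ).curve (mesh lam n) (fn ((Sq ρ hρ).dm (mesh lam n)) ω),
        (Sq ρ hρ).time (mesh lam n) (fn ((Sq ρ hρ).dm (mesh lam n)) ω))) ∈
      K (lam * ρ / 2) lam η

/-- C: the law of the configuration in the rectangle. -/
def S_LAW : Prop := ∀ (D : H984N.Dm) (A : Finset Edg → Prop),
  MeasurableSet {ω : H984H.Conf | A (fn D ω)} ∧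
    H984N.P D.edges A = H984H.perc.real {ω | A (fn D ω)}

/-- E: the sets `K` are closed, and they determine the curve. -/
def S_KCL : Prop := (∀ r lam η : ℝ, IsClosed (K r lam η)) ∧
  (∀ r lam η η' : ℝ, η ≤ η' → K r lam η ⊆ K r lam η') ∧
  ∀ (r lam : ℝ) (q : C(unitInterval, ℂ) × H984N.X), 0 < lam → ‖q.1‖ < r →
    (∀ m : ℕ, q ∈ K r lam (1 / ((m : ℝ) + 1))) → Rev lam q.1 q.2

end Pool.Agent.L0h89.HT
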