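import Pool.Agent.H984R4.HN.FinalH
import Pool.Agent.L0h89.HT.Stm

/-!
Statements: the joint limits and the transfer principle.
-/

set_option autoImplicit false

namespace Pool.Agent.L0h89.HT

open MeasureTheory Filter Topology

/-- Weak limits in the half-plane. -/
def IsLimH (μ : ProbabilityMeasure C(unitInterval, ℂ)) : Prop :=
  ∃ φ : ℕ → ℕ, Tendsto φ atTop atTop ∧ Tendsto (fun i => H984H.lawH (φ i)) atTop (𝓝 μ)

/-- D: joint limits (from `S_CLO`, `S_LAW`, `S_KCL`). -/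
def S_JNT : Prop := ∀ (ρ lam : ℝ) (hρ : 0 < ρ), 0 < lam →
  ∀ μ : ProbabilityMeasure C(unitInterval, ℂ), IsLimH μ →
    ∃ P : ProbabilityMeasure (C(unitInterval, ℂ) × H984N.X),
      (P : Measure (C(unitInterval, ℂ) × H984N.X)).map Prod.fst = (μ : Measure _) ∧
      (∃ ν : ProbabilityMeasure H984N.X, IsLimN (Sq ρ hρ) ν ∧
        (P : Measure (C(unitInterval, ℂ) × H984N.X)).map Prod.snd = (ν : Measure _)) ∧
      ∀ η : ℝ, 0 < η →
        ∀ᵐ q ∂(P : Measure (C(unitInterval, ℂ) × H984N.X)), q ∈ K (lam * ρ / 2) lam η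

/-- G: the transfer principle (from `S_JNT` and `S_KCL`, by disintegration). -/
def S_TRF : Prop := ∀ (ρ lam : ℝ) (hρ : 0 < ρ), 0 < lam →
  ∀ μ : ProbabilityMeasure C(unitInterval, ℂ), IsLimH μ → ∀ Q : H984N.X → Prop,
    (∀ ν : ProbabilityMeasure H984N.X, IsLimN (Sq ρ hρ) ν →
      ∀ᵐ p ∂(ν : Measure H984N.X), Q p) →
    ∀ᵐ f ∂(μ : Measure C(unitInterval, ℂ)), ‖f‖ < lam * ρ / 2 → ∃ p, Q p ∧ Rev lam f p

/-- Transfer from all squares, without scaling. -/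
def S_TR1 : Prop := ∀ μ : ProbabilityMeasure C(unitInterval, ℂ), IsLimH μ →
  ∀ Q : ℝ → H984N.X → Prop,
    (∀ (ρ : ℝ) (hρ : 0 < ρ) (ν : ProbabilityMeasure H984N.X), IsLimN (Sq ρ hρ) ν →
      ∀ᵐ p ∂(ν : Measure H984N.X), Q ρ p) →
    ∀ᵐ f ∂(μ : Measure C(unitInterval, ℂ)), ∃ ρ : ℝ, ∃ p, ‖f‖ < ρ / 2 ∧ Q ρ p ∧ Rev 1 f p

/-- Transfer from the square of size one, with scaling. -/
def S_TR2 : Prop := ∀ μ : ProbabilityMeasure C(unitInterval, ℂ), IsLimH μ →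
  ∀ Q : H984N.X → Prop,
    (∀ (ν : ProbabilityMeasure H984N.X), IsLimN (Sq 1 one_pos) ν →
      ∀ᵐ p ∂(ν : Measure H984N.X), Q p) →
    ∀ᵐ f ∂(μ : Measure C(unitInterval, ℂ)), ∃ lam : ℝ, 0 < lam ∧ ∃ p, Q p ∧ Rev lam f p

end Pool.Agent.L0h89.HT
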