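import Pool.Agent.L0h89.HT.Pred
import Pool.Agent.N892.UP.Defs

/-!
Transfer of properties: intersections with affine copies of regular sets.
-/

set_option autoImplicit false

namespace Pool.Agent.L0h89.HT

open H984N MeasureTheory Filter Topology Metric
open Pool.Agent.N892.UP (packDim)
open scoped ENNReal NNReal

/-- The bounds for the intersection with `S` in `R.D`. -/
def Sect (R : Rect) (f : C(unitInterval, ℂ)) (a : ℝ) (S : Set ℂ) : Prop :=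
  (dimH {s : unitInterval | f s ∈ S ∩ R.D} ≤ ENNReal.ofReal (4/7 * (a - 1/4)) ∧
    packDim {s : unitInterval | f s ∈ S ∩ R.D} ≤ ENNReal.ofReal (4/7 * (a - 1/4))) ∧
  (dimH (Set.range f ∩ (S ∩ R.D)) ≤ ENNReal.ofReal (a - 1/4) ∧
    packDim (Set.range f ∩ (S ∩ R.D)) ≤ ENNReal.ofReal (a - 1/4))

/-- The upper half-plane. -/
def Hp : Set ℂ := {z | 0 < z.im}

/-- The bounds for the intersection with `S` in the half-plane. -/
def SectH (f : C(unitInterval, ℂ)) (a : ℝ) (S : Set ℂ) : Prop :=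
  (dimH {s : unitInterval | f s ∈ S ∩ Hp} ≤ ENNReal.ofReal (4/7 * (a - 1/4)) ∧
    packDim {s : unitInterval | f s ∈ S ∩ Hp} ≤ ENNReal.ofReal (4/7 * (a - 1/4))) ∧
  (dimH (Set.range f ∩ (S ∩ Hp)) ≤ ENNReal.ofReal (a - 1/4) ∧
    packDim (Set.range f ∩ (S ∩ Hp)) ≤ ENNReal.ofReal (a - 1/4))

/-- Regular sets (same as `Pool.Agent.N892.AC.Reg`). -/
def Reg (S : Set ℂ) (a : ℝ) : Prop :=
  ∀ ε : ℝ, 0 < ε → ∃ K : ℝ, ∀ (x : ℂ) (r h : ℝ), 0 < r → r ≤ 1 → r ≤ h →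
    ∃ T : Finset ℂ, (T.card : ℝ) ≤ K * r ^ (-ε) * (h / r) ^ a ∧
      S ∩ closedBall x h ⊆ ⋃ y ∈ T, closedBall y r

/-- ZAFF: the points of `f` in `S ∩ Hp` come from points of `p.1` in `rf ⁻¹' S ∩ (Sq ρ).D`; the
dimensions do not change under `tau` and `rf`; affine copies of `S` are reflected into affine
copies of `S`. -/
def T_Aff : Prop :=
  (∀ (f : C(unitInterval, ℂ)) (p : X) (ρ : ℝ) (hρ : 0 < ρ) (a : ℝ) (S : Set ℂ), Rev 1 f p →
    ‖f‖ < ρ / 2 → Sect (Sq ρ hρ) p.1 a (rf ⁻¹' S) → SectH f a S) ∧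
  (∀ (f : C(unitInterval, ℂ)) (p : X) (a : ℝ), Rev 1 f p → Reg (Set.range p.1) a →
    Reg (Set.range f) a) ∧
  (∀ (S : Set ℂ) (α γ β : ℂ), rf ⁻¹' (aff α γ β '' S) =
    aff (-(starRingEnd ℂ) γ) (-(starRingEnd ℂ) α) (-(starRingEnd ℂ) β) '' S)

end Pool.Agent.L0h89.HT
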