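import Pool.Agent.L0h89.HT.Pred

/-!
Transfer of properties: thick points, Minkowski content of arcs, fixed sets.
-/

set_option autoImplicit false

namespace Pool.Agent.L0h89.HT

open H984N MeasureTheory Filter Topology
open scoped ENNReal NNReal

/-- The point `z` is `θ`-thick for `p = (f, T)`. -/
def Thick (θ : ℝ) (p : X) (z : ℂ) : Prop :=
  ∃ᶠ r : ℝ in 𝓝[>] 0, θ * (r ^ (7/4 : ℝ) * Real.log (1 / r) ^ (1/8 : ℝ)) ≤
    p.2 * (volume {v : unitInterval | dist (p.1 v) z ≤ r}).toReal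

/-- Thick times; `F θ` is a pair of bounds. -/
def Thk (F : ℝ → ℝ≥0∞ × ℝ≥0∞) (θ₀ : ℝ) (p : X) : Prop := ∀ θ : ℝ, 0 < θ → θ ≤ θ₀ →
  ∀ s t : unitInterval, s < t →
    ((F θ).1 ≤ dimH {u | u ∈ Set.Icc s t ∧ Thick θ p (p.1 u)} ∧
      dimH {u | u ∈ Set.Icc s t ∧ Thick θ p (p.1 u)} ≤ (F θ).2)

/-- The times at which the curve is at a point visited at least twice. -/
def dbt (f : C(unitInterval, ℂ)) : Set unitInterval := {s | ∃ t : unitInterval, t ≠ s ∧ f t = f s}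

/-- ZTHK. Upper bound: the time spent by `f` near a point is at most the time spent by `p.1`.
Lower bound: at a time `u` which is not a double time of `p.1` and with `tau u` in the interior of
the range of `tau`, the disc of small radius around `p.1 (tau u)` is only visited near the time
`tau u` (compactness), so thickness for `p` implies thickness for `f`; the double times have
dimension at most `3/7 < (F θ).1`, the end points do not count. -/
def T_Thk : Prop := ∀ (F : ℝ → ℝ≥0∞ × ℝ≥0∞) (θ₀ : ℝ) (f : C(unitInterval, ℂ)) (p : X), Rev 1 f p →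
  dimH (dbt p.1) ≤ 3 / 7 → (∀ θ : ℝ, 0 < θ → θ ≤ θ₀ → 3 / 7 < (F θ).1) →
  Thk F θ₀ p → Thk F θ₀ (f, 1)

/-- Minkowski content of the arcs. -/
def Arc (c C : ℝ) (p : X) : Prop :=
  ∀ᶠ ρ : ℝ in 𝓝[>] 0, ∀ s t : unitInterval, s ≤ t →
    C * ρ ^ (7/4 : ℝ) * Real.log (1 / ρ) ≤ p.2 * ((t : ℝ) - s) →
      c * (p.2 * ((t : ℝ) - s)) * ρ ^ (1/4 : ℝ) ≤
        (volume (Metric.thickening ρ (p.1 '' Set.Icc s t))).toReal ∧
      (volume (Metric.thickening ρ (p.1 '' Set.Icc s t))).toReal ≤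
        C * (p.2 * ((t : ℝ) - s)) * ρ ^ (1/4 : ℝ)

def T_Arc : Prop := ∀ (c C : ℝ) (f : C(unitInterval, ℂ)) (p : X), 0 < c → 0 < C → Rev 1 f p →
  Arc c C p → Arc c C (f, 1)

/-- ZFIX: the times at which the curve is in a set. -/
def T_Fix : Prop := ∀ (f : C(unitInterval, ℂ)) (p : X) (ρ : ℝ) (hρ : 0 < ρ) (S : Set ℂ)
  (d : ℝ≥0∞), Rev 1 f p → ‖f‖ < ρ / 2 → S ⊆ {z | 0 < z.im} →
  dimH {s : unitInterval | p.1 s ∈ rf ⁻¹' S ∩ (Sq ρ hρ).D} ≤ d →
  dimH {s : unitInterval | f s ∈ S} ≤ d ∧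
  ((∀ s, p.1 s ∉ rf ⁻¹' S ∩ (Sq ρ hρ).D) → ∀ s, f s ∉ S)

end Pool.Agent.L0h89.HT
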