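import Pool.Agent.L0h89.HT.StmJ
import Pool.Agent.L0h76.HT.TAU
import Pool.Agent.L0h76.HT.ZMOD
import Pool.Agent.L0h83.HT.Occ
import Pool.Agent.L0h60.HT.Fast
import Pool.Agent.Results.MP_fe58d8_pr.ExactModulus
import Pool.Agent.Results.MP_fe58d8_pr.ExactOccupation
import Pool.Agent.Results.MP_216314_pr.SlowestPieces
import Pool.Agent.Results.MP_216314_pr.SlowTimes
import Pool.Agent.Results.MP_b3e76a_pr.FastTimes

/-!
Assembly of the extremal laws.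
-/

set_option autoImplicit false

namespace Pool.Agent.L0h89.HT

open H984N MeasureTheory Filter Topology
open scoped ENNReal NNReal

theorem Mod.mono {c C c' C' : ℝ} {p : X} (h : Mod c C p) (hc : c' ≤ c) (hC : C ≤ C') :
    Mod c' C' p := by
  intro a b hab
  obtain ⟨h0, hh0, k⟩ := h a b hab
  refine ⟨min h0 1, lt_min hh0 one_pos, fun x hx hlt => ?_⟩
  obtain ⟨⟨s, t, k1, k2, k3, k4, k5⟩, k6⟩ := k x hx (hlt.trans_le (min_le_left _ _))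
  have hx1 : x < 1 := hlt.trans_le (min_le_right _ _)
  have hlog : 0 ≤ Real.log (1 / x) := Real.log_nonneg (by rw [le_div_iff₀ hx]; linarith)
  have hpos : 0 ≤ x ^ (4/7 : ℝ) * Real.log (1 / x) ^ (3/7 : ℝ) := by positivity
  exact ⟨⟨s, t, k1, k2, k3, k4, (mul_le_mul_of_nonneg_right hc hpos).trans k5⟩,
    fun s t hst => (k6 s t hst).trans (mul_le_mul_of_nonneg_right hC hpos)⟩

theorem Occ.mono {c C c' C' : ℝ} {p : X} (h : Occ c C p) (hc : c' ≤ c) (hC : C ≤ C') :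
    Occ c' C' p := by
  intro a b hab
  obtain ⟨h0, hh0, k⟩ := h a b hab
  refine ⟨min h0 1, lt_min hh0 one_pos, fun x hx hlt => ?_⟩
  obtain ⟨⟨z, k5⟩, k6⟩ := k x hx (hlt.trans_le (min_le_left _ _))
  have hx1 : x < 1 := hlt.trans_le (min_le_right _ _)
  have hlog : 0 ≤ Real.log (1 / x) := Real.log_nonneg (by rw [le_div_iff₀ hx]; linarith)
  have hpos : 0 ≤ x ^ (7/4 : ℝ) * Real.log (1 / x) ^ (1/8 : ℝ) := by positivity
  exact ⟨⟨z, (mul_le_mul_of_nonneg_right hc hpos).trans k5⟩,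
    fun z => (k6 z).trans (mul_le_mul_of_nonneg_right hC hpos)⟩

theorem Slo.mono {c C c' C' : ℝ} {p : X} (h : Slo c C p) (hc : c' ≤ c) (hC : C ≤ C') :
    Slo c' C' p := by
  have hev : ∀ᶠ x : ℝ in 𝓝[>] 0, 0 ≤ chi x := by
    have hev : ∀ᶠ r : ℝ in 𝓝[>] 0, 0 < r ∧ r < 1 :=
      Filter.Eventually.and self_mem_nhdsWithin (nhdsWithin_le_nhds (gt_mem_nhds one_pos))
    filter_upwards [hev] with x hx
    have hlog : 0 ≤ Real.log (1 / x) := Real.log_nonneg (by rw [le_div_iff₀ hx.1]; linarith)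
    unfold chi
    have := hx.1
    positivity
  refine ⟨?_, fun s t hst => ?_⟩
  · filter_upwards [h.1, hev] with x k1 k2 u v huv hd
    exact (mul_le_mul_of_nonneg_right hc k2).trans (k1 u v huv hd)
  · filter_upwards [h.2 s t hst, hev] with x ⟨u, v, k1, k2, k3, k4, k5⟩ k
    exact ⟨u, v, k1, k2, k3, k4, k5.trans (mul_le_mul_of_nonneg_right hC k)⟩

/-- Modulus, slowest pieces and occupation. -/
theorem ext_lim (hTR : S_TR2) (hocc : T_Occ) : ∃ c C : ℝ, 0 < c ∧ 0 < C ∧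
    ∀ μ : ProbabilityMeasure C(unitInterval, ℂ), IsLimH μ →
      ∀ᵐ f ∂(μ : Measure C(unitInterval, ℂ)), Mod c C (f, 1) ∧ Slo c C (f, 1) ∧
        Occ c C (f, 1) := by
  obtain ⟨-, c1, C1, hc1, hC1, h1⟩ :=
    Pool.Agent.Results.MP_fe58d8_pr.ExactModulus.result (Sq 1 one_pos)
  obtain ⟨-, c2, C2, hc2, hC2, h2⟩ :=
    Pool.Agent.Results.MP_216314_pr.SlowestPieces.result (Sq 1 one_pos)
  obtain ⟨-, c3, C3, hc3, hC3, h3⟩ :=
    Pool.Agent.Results.MP_fe58d8_pr.ExactOccupation.result (Sq 1 one_pos)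
  obtain ⟨d1, D1, hd1, hD1, k1⟩ := Pool.Agent.L0h76.HT.t_Mod c1 C1 hc1 hC1
  obtain ⟨d2, D2, hd2, hD2, k2⟩ := Pool.Agent.L0h76.HT.t_Slo c2 C2 hc2 hC2
  obtain ⟨d3, D3, hd3, hD3, k3⟩ := hocc c3 C3 hc3 hC3
  refine ⟨min d1 (min d2 d3), max D1 (max D2 D3), by positivity, by positivity,
    fun μ hμ => ?_⟩
  have key := hTR μ hμ (fun p => Mod c1 C1 p ∧ Slo c2 C2 p ∧ Occ c3 C3 p) ?_
  · filter_upwards [key] with f hf
    obtain ⟨lam, hlam, p, ⟨q1, q2, q3⟩, hrev⟩ := hf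
    refine ⟨(k1 lam f p hlam hrev q1).mono (min_le_left _ _) (le_max_left _ _),
      (k2 lam f p hlam hrev q2).mono ((min_le_right _ _).trans (min_le_left _ _))
        ((le_max_left _ _).trans (le_max_right _ _)),
      (k3 lam f p hlam hrev q3).mono ((min_le_right _ _).trans (min_le_right _ _))
        ((le_max_right _ _).trans (le_max_right _ _))⟩
  · rintro ν ⟨δ, hδ, hlim, hν⟩
    filter_upwards [h1 δ hδ hlim ν hν, h2 δ hδ hlim ν hν, h3 δ hδ hlim ν hν] with p g1 g2 g3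
    exact ⟨g1.2, g2.2, g3.2⟩

theorem e74 : (7 / 4 : ℝ≥0∞) = ENNReal.ofReal (7 / 4) := by
  rw [ENNReal.ofReal_div_of_pos (by norm_num)]
  norm_num

/-- Fast times. -/
theorem fast_lim (hTR : S_TR1) : ∃ c C θ₀ : ℝ, 0 < c ∧ 0 < C ∧ 0 < θ₀ ∧
    C * θ₀ ^ (7/3 : ℝ) < 1 ∧ ∀ μ : ProbabilityMeasure C(unitInterval, ℂ), IsLimH μ →
      ∀ᵐ f ∂(μ : Measure C(unitInterval, ℂ)),
        Fst (fun θ => (ENNReal.ofReal (1 - C * θ ^ (7/3 : ℝ)),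
          ENNReal.ofReal (1 - c * θ ^ (7/3 : ℝ)))) θ₀ (f, 1) := by
  obtain ⟨c, C, θ₀, hc, hC, hθ, hCθ, h⟩ := Pool.Agent.Results.MP_b3e76a_pr.FastTimes.result
  refine ⟨c, C, θ₀, hc, hC, hθ, hCθ, fun μ hμ => ?_⟩
  have key := hTR μ hμ (fun _ p => Fst (fun θ => (ENNReal.ofReal (1 - C * θ ^ (7/3 : ℝ)),
          ENNReal.ofReal (1 - c * θ ^ (7/3 : ℝ)))) θ₀ p) ?_
  · filter_upwards [key] with f ⟨ρ, p, _, hp, hrev⟩
    exact Pool.Agent.L0h60.HT.t_Fst _ _ f p hrev hp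
  · rintro ρ hρ ν ⟨δ, hδ, hlim, hν⟩
    filter_upwards [(h (Sq ρ hρ)).2 δ hδ hlim ν hν] with p g
    intro θ hθ hθ' s t hst
    obtain ⟨⟨g1, g2⟩, g3, g4⟩ := g.2 θ hθ hθ' s t hst
    rw [ENNReal.ofReal_mul (by norm_num), ← e74] at g3 g4
    exact ⟨⟨g1, g2⟩, g3, g4⟩

/-- Slow times. -/
theorem slow_lim (hTR : S_TR1) : ∃ c C θ₀ : ℝ, 0 < c ∧ 0 < C ∧ 0 < θ₀ ∧
    C / θ₀ ^ 14 < 1 ∧ ∀ μ : ProbabilityMeasure C(unitInterval, ℂ), IsLimH μ →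
      ∀ᵐ f ∂(μ : Measure C(unitInterval, ℂ)),
        Slw (fun θ => (ENNReal.ofReal (1 - C / θ ^ 14),
          ENNReal.ofReal (1 - c / θ ^ 14))) θ₀ (f, 1) := by
  obtain ⟨c, C, θ₀, hc, hC, hθ, hCθ, h⟩ := Pool.Agent.Results.MP_216314_pr.SlowTimes.result
  refine ⟨c, C, θ₀, hc, hC, hθ, hCθ, fun μ hμ => ?_⟩
  have key := hTR μ hμ (fun _ p => Slw (fun θ => (ENNReal.ofReal (1 - C / θ ^ 14),
          ENNReal.ofReal (1 - c / θ ^ 14))) θ₀ p) ?_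
  · filter_upwards [key] with f ⟨ρ, p, _, hp, hrev⟩
    exact Pool.Agent.L0h60.HT.t_Slw _ _ f p hrev hp
  · rintro ρ hρ ν ⟨δ, hδ, hlim, hν⟩
    filter_upwards [(h (Sq ρ hρ)).2 δ hδ hlim ν hν] with p g
    intro θ hθ s t hst
    obtain ⟨⟨g1, g2⟩, g3, g4⟩ := g.2 θ hθ s t hst
    rw [ENNReal.ofReal_mul (by norm_num), ← e74] at g3 g4
    exact ⟨⟨g1, g2⟩, g3, g4⟩

end Pool.Agent.L0h89.HT
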