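import Pool.Agent.L0h89.HT.StmJ
import Pool.Agent.L0h76.HT.TAU
import Pool.Agent.L0h83.HT.Lil
import Pool.Agent.L0h83.HT.Var
import Pool.Agent.L0h83.HT.Gau
import Pool.Agent.Results.MP_fe58d8_pr.LocalIteratedLogarithm
import Pool.Agent.Results.MP_fe58d8_pr.ChungLaw
import Pool.Agent.Results.MP_fe58d8_pr.ExactVariation
import Pool.Agent.Results.MP_216314_pr.HausdorffGauge

/-!
Assembly of the typical laws.
-/

set_option autoImplicit false

namespace Pool.Agent.L0h89.HT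

open H984N MeasureTheory Filter Topology
open scoped ENNReal NNReal

theorem ll_pos (x : ℝ) : 0 < ll x := lt_of_lt_of_le one_pos (le_max_left _ _)

theorem LIL.mono {c C c' C' : ℝ} {p : X} (hp : 0 ≤ p.2) (h : LIL c C p) (hc : c' ≤ c)
    (hC : C ≤ C') : LIL c' C' p := by
  have hpos : ∀ s t : unitInterval, 0 ≤ phi (p.2 * |(s : ℝ) - t|) := by
    intro s t
    unfold phi
    have := ll_pos (p.2 * |(s : ℝ) - t|)
    positivity
  unfold LIL at h ⊢
  filter_upwards [h] with t ht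
  refine ⟨?_, ?_⟩
  · filter_upwards [ht.1] with s hs
    exact hs.trans (mul_le_mul_of_nonneg_right hC (hpos s t))
  · refine ht.2.mono fun s hs => lt_of_le_of_lt (mul_le_mul_of_nonneg_right hc (hpos s t)) hs

theorem Chu.mono {c C c' C' : ℝ} {p : X} (h : Chu c C p) (hc : c' ≤ c)
    (hC : C ≤ C') : Chu c' C' p := by
  have hev : ∀ᶠ h : ℝ in 𝓝[>] 0, 0 ≤ chi2 h := by
    filter_upwards [self_mem_nhdsWithin] with h hh
    have hh : 0 < h := hh
    unfold chi2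
    have := ll_pos h
    positivity
  unfold Chu at h ⊢
  filter_upwards [h] with t ht
  refine ⟨?_, ?_⟩
  · filter_upwards [ht.1, hev] with x hx hx2 s hs
    obtain ⟨y, hy, hy2⟩ := hx s hs
    exact ⟨y, hy, lt_of_le_of_lt (mul_le_mul_of_nonneg_right hc hx2) hy2⟩
  · refine (ht.2.and_eventually hev).mono fun x hx s hs => ?_
    exact (hx.1 s hs).trans (mul_le_mul_of_nonneg_right hC hx.2)

theorem Var.mono {c C c' C' : ℝ} {p : X} (hp : 0 ≤ p.2) (h : Var c C p) (hc : c' ≤ c)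
    (hC : C ≤ C') : Var c' C' p := by
  intro s t hst
  have h0 : 0 ≤ p.2 * ((t : ℝ) - s) := by
    have : (s : ℝ) ≤ t := hst
    exact mul_nonneg hp (by linarith)
  obtain ⟨h1, h2⟩ := h s t hst
  exact ⟨(ENNReal.ofReal_le_ofReal (mul_le_mul_of_nonneg_right hc h0)).trans h1,
    h2.trans (ENNReal.ofReal_le_ofReal (mul_le_mul_of_nonneg_right hC h0))⟩

theorem Gau.mono {c C c' C' : ℝ} {p : X} (hp : 0 ≤ p.2) (h : Gau c C p) (hc : c' ≤ c)
    (hC : C ≤ C') : Gau c' C' p := by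
  intro S
  obtain ⟨h1, h2⟩ := h S
  refine ⟨le_trans ?_ h1, h2.trans ?_⟩
  · gcongr
  · gcongr

/-- The laws at almost every time, the variation and the Hausdorff measure. -/
theorem typ_lim (hTR : S_TR1) : ∃ c C : ℝ, 0 < c ∧ 0 < C ∧
    ∀ μ : ProbabilityMeasure C(unitInterval, ℂ), IsLimH μ →
      ∀ᵐ f ∂(μ : Measure C(unitInterval, ℂ)), LIL c C (f, 1) ∧ Chu c C (f, 1) ∧
        Var c C (f, 1) ∧ Gau c C (f, 1) ∧
        Measure.hausdorffMeasure (7/4) (Set.range f) = 0 := by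
  obtain ⟨c1, C1, hc1, hC1, h1⟩ := Pool.Agent.Results.MP_fe58d8_pr.LocalIteratedLogarithm.result
  obtain ⟨c2, C2, hc2, hC2, h2⟩ := Pool.Agent.Results.MP_fe58d8_pr.ChungLaw.result
  obtain ⟨c3, C3, hc3, hC3, h3⟩ := Pool.Agent.Results.MP_fe58d8_pr.ExactVariation.result
  obtain ⟨c4, C4, hc4, hC4, h4⟩ := Pool.Agent.Results.MP_216314_pr.HausdorffGauge.result
  refine ⟨min (min c1 c2) (min c3 c4), max (max C1 C2) (max C3 C4), by positivity,
    by positivity, fun μ hμ => ?_⟩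
  have key := hTR μ hμ (fun _ p => LIL c1 C1 p ∧ Chu c2 C2 p ∧ Var c3 C3 p ∧ Gau c4 C4 p) ?_
  · filter_upwards [key] with f ⟨ρ, p, _, ⟨g1, g2, g3, g4⟩, hrev⟩
    have k4 := Pool.Agent.L0h83.HT.t_gau Pool.Agent.L0h76.HT.s_TAU c4 C4 f p hc4 hC4 hrev g4
    refine ⟨(Pool.Agent.L0h83.HT.t_lil Pool.Agent.L0h76.HT.s_TAU c1 C1 f p hc1 hC1 hrev g1).mono
        zero_le_one ((min_le_left _ _).trans (min_le_left _ _))
        ((le_max_left _ _).trans (le_max_left _ _)),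
      (Pool.Agent.L0h83.HT.t_chu Pool.Agent.L0h76.HT.s_TAU c2 C2 f p hc2 hC2 hrev g2).mono
        ((min_le_left _ _).trans (min_le_right _ _))
        ((le_max_right _ _).trans (le_max_left _ _)),
      (Pool.Agent.L0h83.HT.t_var Pool.Agent.L0h76.HT.s_TAU c3 C3 f p hc3 hC3 hrev g3).mono
        zero_le_one ((min_le_right _ _).trans (min_le_left _ _))
        ((le_max_left _ _).trans (le_max_right _ _)),
      k4.mono zero_le_one ((min_le_right _ _).trans (min_le_right _ _))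
        ((le_max_right _ _).trans (le_max_right _ _)), ?_⟩
    refine Pool.Agent.Y995.HG.haus_zero ?_
    have k5 := (k4 Set.univ).2
    rw [Set.image_univ] at k5
    exact ne_top_of_le_ne_top (ENNReal.mul_ne_top ENNReal.ofReal_ne_top (measure_ne_top _ _)) k5
  · rintro ρ hρ ν ⟨δ, hδ, hlim, hν⟩
    filter_upwards [(h1 (Sq ρ hρ)).2 δ hδ hlim ν hν, (h2 (Sq ρ hρ)).2 δ hδ hlim ν hν,
      (h3 (Sq ρ hρ)).2 δ hδ hlim ν hν, (h4 (Sq ρ hρ)).2 δ hδ hlim ν hν] with p g1 g2 g3 g4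
    exact ⟨g1.2, g2.2, g3.2, g4.2.1⟩

end Pool.Agent.L0h89.HT
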