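import Pool.Agent.L0h89.HT.StmJ
import Pool.Agent.L0h60.HT.Fast
import Pool.Agent.Results.MP_b3e76a_pr.FastTimes

/-!
Assembly: fast times.
-/

set_option autoImplicit false

namespace Pool.Agent.L0h89.HT

open H984N MeasureTheory Filter Topology
open scoped ENNReal NNReal

theorem e74 : (7 / 4 : ℝ≥0∞) = ENNReal.ofReal (7 / 4) := by
  rw [ENNReal.ofReal_div_of_pos (by norm_num)]
  norm_num

/-- Fast times. -/
theorem fast_lim (hTR : S_TR1) : ∃ c C θ₀ : ℝ, 0 < c ∧ 0 < C ∧ 0 < θ₀ ∧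
    C * θ₀ ^ (7/3 : ℝ) < 1 ∧ ∀ μ : ProbabilityMeasure C(unitInterval, ℂ), IsLimH μ →
      ∀ᵐ f ∂(μ : Measure C(unitInterval, ℂ)),
        Fst (fun θ => (ENNReal.ofReal (1 - C * θ ^ (7/3 : ℝ)),
          ENNReal.ofReal (1 - c * θ ^ (7/3 : ℝ)))) θ₀ (f, 1) := by
  obtain ⟨c, C, θ₀, hc, hC, hθ, hCθ, h⟩ := Pool.Agent.Results.MP_b3e76a_pr.FastTimes.result
  refine ⟨c, C, θ₀, hc, hC, hθ, hCθ, fun μ hμ => ?_⟩
  have key := hTR μ hμ (fun _ p => Fst (fun θ => (ENNReal.ofReal (1 - C * θ ^ (7/3 : ℝ)),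
          ENNReal.ofReal (1 - c * θ ^ (7/3 : ℝ)))) θ₀ p) ?_
  · filter_upwards [key] with f ⟨ρ, p, _, hp, hrev⟩
    exact Pool.Agent.L0h60.HT.t_Fst _ _ f p hrev hp
  · rintro ρ hρ ν ⟨δ, hδ, hlim, hν⟩
    filter_upwards [(h (Sq ρ hρ)).2 δ hδ hlim ν hν] with p g
    intro θ hθ hθ' s t hst
    obtain ⟨⟨g1, g2⟩, g3, g4⟩ := g.2 θ hθ hθ' s t hst
    rw [ENNReal.ofReal_mul (by norm_num), ← e74] at g3 g4
    exact ⟨⟨g1, g2⟩, g3, g4⟩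

end Pool.Agent.L0h89.HT
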