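import Pool.Agent.L0h89.HT.StmJ
import Pool.Agent.L0h76.HT.TAU
import Pool.Agent.L0h83.HT.Gau
import Pool.Agent.Results.MP_216314_pr.HausdorffGauge

/-!
Assembly: the exact Hausdorff gauge.
-/

set_option autoImplicit false

namespace Pool.Agent.L0h89.HT

open H984N MeasureTheory Filter Topology
open scoped ENNReal NNReal

theorem gau_lim (hTR : S_TR1) : ∃ c C : ℝ, 0 < c ∧ 0 < C ∧
    ∀ μ : ProbabilityMeasure C(unitInterval, ℂ), IsLimH μ →
      ∀ᵐ f ∂(μ : Measure C(unitInterval, ℂ)), Gau c C (f, 1) ∧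
        Measure.hausdorffMeasure (7/4) (Set.range f) = 0 := by
  obtain ⟨c4, C4, hc4, hC4, h4⟩ := Pool.Agent.Results.MP_216314_pr.HausdorffGauge.result
  refine ⟨c4, C4, hc4, hC4, fun μ hμ => ?_⟩
  have key := hTR μ hμ (fun _ p => Gau c4 C4 p) ?_
  · filter_upwards [key] with f ⟨ρ, p, _, g4, hrev⟩
    have k4 := Pool.Agent.L0h83.HT.t_gau Pool.Agent.L0h76.HT.s_TAU c4 C4 f p hc4 hC4 hrev g4
    refine ⟨k4, Pool.Agent.Y995.HG.haus_zero ?_⟩
    have k5 := (k4 Set.univ).2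
    rw [Set.image_univ] at k5
    exact ne_top_of_le_ne_top (ENNReal.mul_ne_top ENNReal.ofReal_ne_top (measure_ne_top _ _)) k5
  · rintro ρ hρ ν ⟨δ, hδ, hlim, hν⟩
    filter_upwards [(h4 (Sq ρ hρ)).2 δ hδ hlim ν hν] with p g4
    exact g4.2.1

end Pool.Agent.L0h89.HT
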