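import Pool.Agent.L0h89.HT.StmJ
import Pool.Agent.L0h76.HT.ZMOD
import Pool.Agent.Results.MP_fe58d8_pr.ExactModulus
import Pool.Agent.Results.MP_216314_pr.SlowestPieces

/-!
Assembly: the diameters of the pieces of given duration.
-/

set_option autoImplicit false

namespace Pool.Agent.L0h89.HT

open H984N MeasureTheory Filter Topology
open scoped ENNReal NNReal

theorem Mod.mono {c C c' C' : ℝ} {p : X} (h : Mod c C p) (hc : c' ≤ c) (hC : C ≤ C') :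
    Mod c' C' p := by
  intro a b hab
  obtain ⟨h0, hh0, k⟩ := h a b hab
  refine ⟨min h0 1, lt_min hh0 one_pos, fun x hx hlt => ?_⟩
  obtain ⟨⟨s, t, k1, k2, k3, k4, k5⟩, k6⟩ := k x hx (hlt.trans_le (min_le_left _ _))
  have hx1 : x < 1 := hlt.trans_le (min_le_right _ _)
  have hlog : 0 ≤ Real.log (1 / x) := Real.log_nonneg (by rw [le_div_iff₀ hx]; linarith)
  have hpos : 0 ≤ x ^ (4/7 : ℝ) * Real.log (1 / x) ^ (3/7 : ℝ) := by positivity
  exact ⟨⟨s, t, k1, k2, k3, k4, (mul_le_mul_of_nonneg_right hc hpos).trans k5⟩,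
    fun s t hst => (k6 s t hst).trans (mul_le_mul_of_nonneg_right hC hpos)⟩

theorem Slo.mono {c C c' C' : ℝ} {p : X} (h : Slo c C p) (hc : c' ≤ c) (hC : C ≤ C') :
    Slo c' C' p := by
  have hev : ∀ᶠ x : ℝ in 𝓝[>] 0, 0 ≤ chi x := by
    have hev : ∀ᶠ r : ℝ in 𝓝[>] 0, 0 < r ∧ r < 1 :=
      Filter.Eventually.and self_mem_nhdsWithin (nhdsWithin_le_nhds (gt_mem_nhds one_pos))
    filter_upwards [hev] with x hx
    have hlog : 0 ≤ Real.log (1 / x) := Real.log_nonneg (by rw [le_div_iff₀ hx.1]; linarith)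
    unfold chi
    have := hx.1
    positivity
  refine ⟨?_, fun s t hst => ?_⟩
  · filter_upwards [h.1, hev] with x k1 k2 u v huv hd
    exact (mul_le_mul_of_nonneg_right hc k2).trans (k1 u v huv hd)
  · filter_upwards [h.2 s t hst, hev] with x ⟨u, v, k1, k2, k3, k4, k5⟩ k
    exact ⟨u, v, k1, k2, k3, k4, k5.trans (mul_le_mul_of_nonneg_right hC k)⟩

/-- Modulus and slowest pieces. -/
theorem ext_lim (hTR : S_TR2) : ∃ c C : ℝ, 0 < c ∧ 0 < C ∧
    ∀ μ : ProbabilityMeasure C(unitInterval, ℂ), IsLimH μ →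
      ∀ᵐ f ∂(μ : Measure C(unitInterval, ℂ)), Mod c C (f, 1) ∧ Slo c C (f, 1) := by
  obtain ⟨-, c1, C1, hc1, hC1, h1⟩ :=
    Pool.Agent.Results.MP_fe58d8_pr.ExactModulus.result (Sq 1 one_pos)
  obtain ⟨-, c2, C2, hc2, hC2, h2⟩ :=
    Pool.Agent.Results.MP_216314_pr.SlowestPieces.result (Sq 1 one_pos)
  obtain ⟨d1, D1, hd1, hD1, k1⟩ := Pool.Agent.L0h76.HT.t_Mod c1 C1 hc1 hC1
  obtain ⟨d2, D2, hd2, hD2, k2⟩ := Pool.Agent.L0h76.HT.t_Slo c2 C2 hc2 hC2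
  refine ⟨min d1 d2, max D1 D2, by positivity, by positivity, fun μ hμ => ?_⟩
  have key := hTR μ hμ (fun p => Mod c1 C1 p ∧ Slo c2 C2 p) ?_
  · filter_upwards [key] with f hf
    obtain ⟨lam, hlam, p, ⟨q1, q2⟩, hrev⟩ := hf
    exact ⟨(k1 lam f p hlam hrev q1).mono (min_le_left _ _) (le_max_left _ _),
      (k2 lam f p hlam hrev q2).mono (min_le_right _ _) (le_max_right _ _)⟩
  · rintro ν ⟨δ, hδ, hlim, hν⟩
    filter_upwards [h1 δ hδ hlim ν hν, h2 δ hδ hlim ν hν] with p g1 g2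
    exact ⟨g1.2, g2.2⟩

/-- Extension of an interval inside another one. -/
theorem ext_int {a b s t : unitInterval} {h : ℝ} (hs : a ≤ s) (hst : s ≤ t) (ht : t ≤ b)
    (h1 : (t : ℝ) - s ≤ h) (h2 : h ≤ (b : ℝ) - a) :
    ∃ u v : unitInterval, a ≤ u ∧ u ≤ s ∧ t ≤ v ∧ v ≤ b ∧ (v : ℝ) - u = h := by
  have hs' : (a : ℝ) ≤ s := hs
  have hst' : (s : ℝ) ≤ t := hst
  have ht' : (t : ℝ) ≤ b := ht
  have ha0 := a.2.1
  have hb1 := b.2.2
  by_cases hc : (s : ℝ) + h ≤ b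
  · refine ⟨s, ⟨s + h, by linarith, by linarith⟩, hs, le_rfl, ?_, ?_, by simp⟩
    · show (t : ℝ) ≤ s + h
      linarith
    · exact hc
  · push Not at hc
    refine ⟨⟨b - h, by linarith, by linarith⟩, b, ?_, ?_, ht, le_rfl, by simp⟩
    · show (a : ℝ) ≤ b - h
      linarith
    · show (b : ℝ) - h ≤ s
      linarith

end Pool.Agent.L0h89.HT
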