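import Pool.Agent.L0h89.HT.Stm
import Pool.Agent.H984R4.HN.Couple

/-!
A: the lattice coupling of the half-plane path and the path in a rectangle.
-/

set_option autoImplicit false

namespace Pool.Agent.L0h89.HT

open H974 Finset H342P H984P

/-- The reflected dual state. -/
def Th (σ : St) : St := match σ.2 with
  | .ne => ((-σ.1.1, σ.1.2 + 1), .se)
  | .nw => ((1 - σ.1.1, σ.1.2 + 1), .sw)
  | .sw => ((1 - σ.1.1, σ.1.2), .nw)
  | .se => ((-σ.1.1, σ.1.2), .ne)

/-- The inverse of `th`. -/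
def ht (e : Edg) : Edg := bif e.2.2 then (-e.1, e.2.1 - 1, false) else (-e.1, e.2.1, true)

theorem th_ht (e : Edg) : th (ht e) = e := by
  obtain ⟨x, y, b⟩ := e
  cases b <;> simp [th, ht]

theorem ht_th (e : Edg) : ht (th e) = e := by
  obtain ⟨x, y, b⟩ := e
  cases b <;> simp [th, ht]

/-- The dual configuration, reflected. -/
def dl (C : Set Edg) : Set Edg := {e | ht e ∉ C}

theorem Th_step (C : Set Edg) (σ : St) :
    Th (H984H.step C σ) = H984H.step (dl C) (Th σ) := by
  obtain ⟨⟨x, y⟩, q⟩ := σ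
  cases q
  · have e : ht (-x, y + 1, true) = (x, y, false) := by simp [ht]
    by_cases h : ((x, y, false) : Edg) ∈ C
    · have h' : ((-x, y + 1, true) : Edg) ∉ dl C := by
        intro hc; exact hc (by rw [e]; exact h)
      simp [H984H.step, Th, h, h']
    · have h' : ((-x, y + 1, true) : Edg) ∈ dl C := by
        change ht _ ∉ C; rw [e]; exact h
      simp only [H984H.step, Th, h, h', if_true, if_false]
      simp; ring
  · have e : ht (1 - x, y, false) = (x - 1, y, true) := by simp [ht]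
    by_cases h : ((x - 1, y, true) : Edg) ∈ C
    · have h' : ((1 - x, y, false) : Edg) ∉ dl C := by
        intro hc; exact hc (by rw [e]; exact h)
      simp [H984H.step, Th, h, h']
    · have h' : ((1 - x, y, false) : Edg) ∈ dl C := by
        change ht _ ∉ C; rw [e]; exact h
      simp [H984H.step, Th, h, h']
  · have e : ht (1 - x - 1, y, true) = (x, y - 1, false) := by simp [ht]
    by_cases h : ((x, y - 1, false) : Edg) ∈ C
    · have h' : ((1 - x - 1, y, true) : Edg) ∉ dl C := by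
        intro hc; exact hc (by rw [e]; exact h)
      simp only [H984H.step, Th, h, h', if_true, if_false]
      simp
    · have h' : ((1 - x - 1, y, true) : Edg) ∈ dl C := by
        change ht _ ∉ C; rw [e]; exact h
      simp only [H984H.step, Th, h, h', if_true, if_false]
      simp
  · have e : ht (-x, y, false) = (x, y, true) := by simp [ht]
    by_cases h : ((x, y, true) : Edg) ∈ C
    · have h' : ((-x, y, false) : Edg) ∉ dl C := by
        intro hc; exact hc (by rw [e]; exact h)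
      simp [H984H.step, Th, h, h']
    · have h' : ((-x, y, false) : Edg) ∈ dl C := by
        change ht _ ∉ C; rw [e]; exact h
      simp [H984H.step, Th, h, h']

/-- The reversed path in the rectangle. -/
noncomputable def W (D : H984N.Dm) (F : Finset Edg) (m : ℕ) : St := D.walk F (D.len F - m)

theorem W_zero {D : H984N.Dm} (hD : D.Ok) {F : Finset Edg} (hF : F ⊆ D.edges) :
    W D F 0 = ((0, 0), .se) := H984N.walk_len hD hF

theorem W_succ (D : H984N.Dm) (F : Finset Edg) {m : ℕ} (hm : m < D.len F) :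
    W D F (m + 1) = H984H.step (D.cfg F) (W D F m) := by
  have h : D.len F - m = (D.len F - (m + 1)) + 1 := by omega
  unfold W
  rw [h, H984N.walk_succ, H984H.step_nxt]

theorem TW_succ (D : H984N.Dm) (F : Finset Edg) {m : ℕ} (hm : m < D.len F) :
    Th (W D F (m + 1)) = H984H.step (dl (D.cfg F)) (Th (W D F m)) := by
  rw [W_succ D F hm, Th_step]

/-- The boundary states after the end of the path. -/
theorem orb_bot {D : H984N.Dm} (hD : D.Ok) {F : Finset Edg} (hF : F ⊆ D.edges) (b : ℕ)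
    (hb : (b : ℤ) ≤ 2 * (-D.l) + 1) :
    ∃ j : ℕ, (b = 2 * j ∧ orb (D.cfg F) H984N.Dm.stop b = ((-(j:ℤ), 0), .se)) ∨
      (b = 2 * j + 1 ∧ orb (D.cfg F) H984N.Dm.stop b = ((-(j:ℤ), 0), .sw)) := by
  induction b with
  | zero => exact ⟨0, Or.inl ⟨rfl, by simp [H984N.Dm.stop]⟩⟩
  | succ b ih =>
    obtain ⟨j, h | h⟩ := ih (by push_cast at hb; linarith)
    · refine ⟨j, Or.inr ⟨by omega, ?_⟩⟩
      rw [orb_succ, h.2, nxt_closed]
      · simp
      · rw [ae_se]
        intro hc
        have := (H984N.Walk_cfg_in hD hF hc).1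
        simp only [src_mk, inR] at this
        omega
    · refine ⟨j + 1, Or.inl ⟨by omega, ?_⟩⟩
      rw [orb_succ, h.2, nxt_open]
      · simp; ring
      · rw [ae_sw]
        refine Or.inr (Or.inr (Or.inr ⟨rfl, rfl, ?_, ?_⟩))
        · simp only
          have := h.1
          push_cast at hb
          omega
        · simp only
          omega

/-- The path does not visit the boundary states. -/
theorem W_ne {D : H984N.Dm} (hD : D.Ok) {F : Finset Edg} (hF : F ⊆ D.edges) {m a : ℕ}
    (hm : m ≤ D.len F) (ha : 1 ≤ a) (ha2 : (a : ℤ) ≤ 2 * (-D.l) + 1) :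
    W D F m ≠ orb (D.cfg F) H984N.Dm.stop a := by
  intro he
  have hL := H984N.walk_len hD hF
  have hinj : ∀ σ τ : St, nxt (D.cfg F) σ = nxt (D.cfg F) τ → σ = τ := by
    intro σ τ h
    rw [← H984H.step_nxt (D.cfg F) σ, h, H984H.step_nxt]
  have hinj' : ∀ (n : ℕ) (σ τ : St), orb (D.cfg F) σ n = orb (D.cfg F) τ n → σ = τ := by
    intro n
    induction n with
    | zero => intro σ τ h; simpa using h
    | succ n ih =>
      intro σ τ h
      rw [orb_succ, orb_succ] at h
      exact ih σ τ (hinj _ _ h)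
  -- walk (len - m) = walk (len + a)
  have h1 : D.walk F (D.len F - m) = D.walk F (D.len F + a) := by
    have h2 : D.walk F (D.len F + a) = orb (D.cfg F) (D.walk F (D.len F)) a := by
      unfold H984N.Dm.walk
      rw [← orb_add]
      congr 1
      omega
    rw [h2, hL]
    exact he
  have h3 : D.start = D.walk F (a + m) := by
    apply hinj' (D.len F - m)
    have e1 : orb (D.cfg F) D.start (D.len F - m) = D.walk F (D.len F - m) := rfl
    have e2 : orb (D.cfg F) (D.walk F (a + m)) (D.len F - m) = D.walk F (D.len F + a) := by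
      unfold H984N.Dm.walk
      rw [← orb_add]
      congr 1
      omega
    rw [e1, e2, h1]
  by_cases hle : a + m ≤ D.len F
  · exact H984N.walk_inj hD hF (i := 0) (j := a + m) (by omega) hle h3
  · obtain ⟨b, hb⟩ : ∃ b, a + m = D.len F + b := ⟨a + m - D.len F, by omega⟩
    have h4 : D.walk F (a + m) = orb (D.cfg F) H984N.Dm.stop b := by
      rw [hb, ← hL]
      unfold H984N.Dm.walk
      rw [← orb_add]
      congr 1
      omega
    rw [h4] at h3
    obtain ⟨j, h5 | h5⟩ := orb_bot hD hF b (by omega)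
    · rw [h5.2] at h3
      exact absurd (congrArg Prod.snd h3) (by simp [H984N.Dm.start])
    · rw [h5.2] at h3
      exact absurd (congrArg Prod.snd h3) (by simp [H984N.Dm.start])

theorem W_in {D : H984N.Dm} (hD : D.Ok) {F : Finset Edg} (hF : F ⊆ D.edges) (m : ℕ) :
    inR D.l D.r 0 D.h (W D F m).1 := H984N.walk_in hD hF _

/-- The states of the reflected dual path. -/
theorem TW_pos {D : H984N.Dm} (hD : D.Ok) {F : Finset Edg} (hF : F ⊆ D.edges) {m : ℕ}
    (hm : m ≤ D.len F) : 0 ≤ (Th (W D F m)).1.2 ∧ ((Th (W D F m)).1.2 = 0 →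
      (Th (W D F m)).1.1 ≤ 0 ∧ ((Th (W D F m)).2 = .ne ∨ (Th (W D F m)).2 = .nw)) := by
  have hin := W_in hD hF m
  have hne := fun a h1 h2 => W_ne hD hF (a := a) hm h1 h2
  obtain ⟨σ, hσ⟩ : ∃ σ, σ = W D F m := ⟨_, rfl⟩
  rw [← hσ] at hin hne ⊢
  obtain ⟨⟨x, y⟩, q⟩ := σ
  simp only [inR] at hin
  have hl := hD.l_neg
  cases q
  · simp only [Th]
    refine ⟨by omega, fun h => ?_⟩
    omega
  · simp only [Th]
    refine ⟨by omega, fun h => ?_⟩
    omega
  · simp only [Th]
    refine ⟨by omega, fun h => ⟨?_, Or.inr trivial⟩⟩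
    by_contra hx
    obtain ⟨j, h1 | h1⟩ := orb_bot hD hF (2 * (-x).toNat + 1) (by push_cast; omega)
    · omega
    · have h2 : (j : ℤ) = -x := by omega
      apply hne (2 * (-x).toNat + 1) (by omega) (by push_cast; omega)
      rw [h1.2, h2, h]
      simp
  · simp only [Th]
    refine ⟨by omega, fun h => ⟨?_, Or.inl trivial⟩⟩
    by_contra hx
    obtain ⟨j, h1 | h1⟩ := orb_bot hD hF (2 * (-x).toNat) (by push_cast; omega)
    · have h2 : (j : ℤ) = -x := by omega
      apply hne (2 * (-x).toNat) (by omega) (by push_cast; omega)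
      rw [h1.2, h2, h]
      simp
    · omega

theorem fn_sub (D : H984N.Dm) (ω : H984H.Conf) : fn D ω ⊆ D.edges := Finset.filter_subset _ _

/-- Vertical edges in the box. -/
theorem dl_false {D : H984N.Dm} (ω : H984H.Conf) {x y : ℤ} (h1 : D.l ≤ -x) (h2 : -x < D.r)
    (h3 : 0 ≤ y) (h4 : y < D.h) :
    ((x, y, false) : Edg) ∈ dl (D.cfg (fn D ω)) ↔
      ω (x, y, false) = true ∧ ¬ (y = 0 ∧ 0 < x) := by
  have e : ht (x, y, false) = (-x, y, true) := by simp [ht]
  have e2 : th (-x, y, true) = (x, y, false) := by simp [th]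
  change ht _ ∉ D.cfg (fn D ω) ↔ _
  rw [e]
  unfold H984N.Dm.cfg H984N.Dm.wir fn
  simp only [Set.mem_union, Finset.coe_filter, Set.mem_ofPred_eq, e2, H984N.Dm.edges, mem_RE_true,
    Bool.true_eq_false, false_and, false_or, true_and]
  cases ω (x, y, false)
  · simp only [Bool.false_eq_true, false_and, iff_false, not_not]
    left
    exact ⟨⟨h1, h2, h3, h4.le⟩, trivial⟩
  · simp only [Bool.true_eq_false, and_false, false_or, true_and]
    constructor
    · intro h ⟨hy, hx⟩
      exact h (Or.inr ⟨hy, h1, by omega⟩)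
    · rintro h (⟨ha, hb⟩ | ⟨ha, hb, hc⟩)
      · omega
      · exact h ⟨ha, by omega⟩

/-- Horizontal edges in the box. -/
theorem dl_true {D : H984N.Dm} (ω : H984H.Conf) {x y : ℤ} (h1 : D.l < -x) (h2 : -x ≤ D.r)
    (h3 : 1 ≤ y) (h4 : y ≤ D.h) :
    ((x, y, true) : Edg) ∈ dl (D.cfg (fn D ω)) ↔ ω (x, y, true) = true := by
  have e : ht (x, y, true) = (-x, y - 1, false) := by simp [ht]
  have e2 : th (-x, y - 1, false) = (x, y, true) := by simp [th]
  change ht _ ∉ D.cfg (fn D ω) ↔ _
  rw [e]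
  unfold H984N.Dm.cfg H984N.Dm.wir fn
  simp only [Set.mem_union, Finset.coe_filter, Set.mem_ofPred_eq, e2, H984N.Dm.edges, mem_RE_false,
    Bool.false_eq_true, false_and, false_or, or_false, true_and]
  cases ω (x, y, true)
  · simp only [Bool.false_eq_true, iff_false, not_not]
    left
    exact ⟨⟨h1.le, h2, by omega, by omega⟩, trivial⟩
  · simp only [Bool.true_eq_false, and_false, false_or, iff_true]
    rintro ⟨ha, hb, hc⟩
    omega

/-- The bottom edges. -/
theorem dl_bot {D : H984N.Dm} (ω : H984H.Conf) (x : ℤ) :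
    ((x, 0, true) : Edg) ∈ dl (D.cfg (fn D ω)) := by
  have e : ht (x, 0, true) = (-x, -1, false) := by simp [ht]
  change ht _ ∉ D.cfg (fn D ω)
  rw [e]
  unfold H984N.Dm.cfg H984N.Dm.wir fn
  simp only [Set.mem_union, Finset.coe_filter, Set.mem_ofPred_eq, H984N.Dm.edges, mem_RE_false,
    Bool.false_eq_true, false_and, false_or, or_false, true_and]
  omega

theorem opn_false (ω : H984H.Conf) (x y : ℤ) :
    ((x, y, false) : Edg) ∈ H984H.opn ω ↔ 0 ≤ y ∧ ω (x, y, false) = true := by
  unfold H984H.opn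
  simp

theorem opn_true (ω : H984H.Conf) (x y : ℤ) :
    ((x, y, true) : Edg) ∈ H984H.opn ω ↔
      (y = 0 ∧ x < 0) ∨ (0 ≤ y ∧ y ≠ 0 ∧ ω (x, y, true) = true) := by
  unfold H984H.opn
  simp

open Classical in
/-- The two paths make the same step, except at a dangling edge. -/
theorem same {D : H984N.Dm} (hD : D.Ok) {ρ : ℕ} (h1 : (ρ : ℤ) ≤ -D.l) (h2 : (ρ : ℤ) ≤ D.r)
    (h3 : (ρ : ℤ) ≤ D.h) (ω : H984H.Conf) {m : ℕ} (hm : m ≤ D.len (fn D ω))
    (hb : H984N.sd (Th (W D (fn D ω) m)).1 (0, 0) < (ρ : ℤ) - 1) :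
    H984H.step (H984H.opn ω) (Th (W D (fn D ω) m)) =
      H984H.step (dl (D.cfg (fn D ω))) (Th (W D (fn D ω) m)) ∨
    ∃ X : ℤ, 0 < X ∧ Th (W D (fn D ω) m) = ((X, 1), .sw) ∧ ω (X, 0, false) = true := by
  obtain ⟨hp1, hp2⟩ := TW_pos hD (fn_sub D ω) hm
  obtain ⟨τ, hτ⟩ : ∃ τ, τ = Th (W D (fn D ω) m) := ⟨_, rfl⟩
  rw [← hτ] at hb hp1 hp2 ⊢
  obtain ⟨⟨x, y⟩, q⟩ := τ
  unfold H984N.sd at hb
  simp only [sub_zero] at hb hp1 hp2
  obtain ⟨hx, hy⟩ := max_lt_iff.1 hb
  rw [abs_lt] at hx hy
  cases q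
  · left
    have k1 := opn_false ω x y
    have k2 := dl_false (D := D) ω (x := x) (y := y) (by omega) (by omega) hp1 (by omega)
    have k3 : ((x, y, false) : Edg) ∈ H984H.opn ω ↔
        ((x, y, false) : Edg) ∈ dl (D.cfg (fn D ω)) := by
      rw [k1, k2]
      constructor
      · rintro ⟨_, h⟩
        exact ⟨h, fun hc => by have := (hp2 hc.1).1; omega⟩
      · rintro ⟨h, _⟩
        exact ⟨hp1, h⟩
    simp only [H984H.step]
    exact if_congr k3 rfl rfl
  · left
    have k1 := opn_true ω (x - 1) y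
    have k3 : ((x - 1, y, true) : Edg) ∈ H984H.opn ω ↔
        ((x - 1, y, true) : Edg) ∈ dl (D.cfg (fn D ω)) := by
      by_cases hy0 : y = 0
      · have := (hp2 hy0).1
        subst hy0
        rw [k1]
        simp only [dl_bot, iff_true]
        left
        exact ⟨trivial, by omega⟩
      · have k2 := dl_true (D := D) ω (x := x - 1) (y := y) (by omega) (by omega) (by omega)
          (by omega)
        rw [k1, k2]
        constructor
        · rintro (h | h)
          · exact absurd h.1 hy0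
          · exact h.2.2
        · intro h
          exact Or.inr ⟨hp1, hy0, h⟩
    simp only [H984H.step]
    exact if_congr k3 rfl rfl
  · have hy0 : y ≠ 0 := by
      intro h
      rcases (hp2 h).2 with h | h <;> exact absurd h (by simp)
    have k1 := opn_false ω x (y - 1)
    have k2 := dl_false (D := D) ω (x := x) (y := y - 1) (by omega) (by omega) (by omega)
      (by omega)
    by_cases hex : y - 1 = 0 ∧ 0 < x ∧ ω (x, y - 1, false) = true
    · right
      obtain ⟨e1, e2, e3⟩ := hex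
      have e4 : y = 1 := by omega
      subst e4
      exact ⟨x, e2, rfl, by simpa using e3⟩
    · left
      have k3 : ((x, y - 1, false) : Edg) ∈ H984H.opn ω ↔
          ((x, y - 1, false) : Edg) ∈ dl (D.cfg (fn D ω)) := by
        rw [k1, k2]
        constructor
        · rintro ⟨_, h⟩
          exact ⟨h, fun hc => hex ⟨hc.1, hc.2, h⟩⟩
        · rintro ⟨h, _⟩
          exact ⟨by omega, h⟩
      simp only [H984H.step]
      exact if_congr k3 rfl rfl
  · have hy0 : y ≠ 0 := by
      intro h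
      rcases (hp2 h).2 with h | h <;> exact absurd h (by simp)
    left
    have k1 := opn_true ω x y
    have k2 := dl_true (D := D) ω (x := x) (y := y) (by omega) (by omega) (by omega)
      (by omega)
    have k3 : ((x, y, true) : Edg) ∈ H984H.opn ω ↔
        ((x, y, true) : Edg) ∈ dl (D.cfg (fn D ω)) := by
      rw [k1, k2]
      constructor
      · rintro (h | h)
        · exact absurd h.1 hy0
        · exact h.2.2
      · intro h
        exact Or.inr ⟨hp1, hy0, h⟩
    simp only [H984H.step]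
    exact if_congr k3 rfl rfl

open Classical in
/-- The number of columns in which the path has visited the lowest row on the right. -/
noncomputable def exc (ω : H984H.Conf) (ρ k : ℕ) : ℕ :=
  ((Finset.Icc 1 ρ).filter (fun X : ℕ => ∃ j ≤ k, H984H.path ω j = (((X : ℤ), 0), Q4.nw))).card

theorem exc_le (ω : H984H.Conf) (ρ k : ℕ) : exc ω ρ k ≤ ρ := by
  unfold exc
  refine (Finset.card_filter_le _ _).trans ?_
  simp

theorem exc_mono (ω : H984H.Conf) (ρ : ℕ) {k l : ℕ} (h : k ≤ l) : exc ω ρ k ≤ exc ω ρ l := by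
  unfold exc
  apply Finset.card_le_card
  intro X hX
  rw [Finset.mem_filter] at hX ⊢
  obtain ⟨h1, j, hj, h2⟩ := hX
  exact ⟨h1, j, hj.trans h, h2⟩

theorem exc_succ (ω : H984H.Conf) {ρ k : ℕ} {X : ℤ} (hX : 0 < X) (hX2 : X ≤ ρ)
    (h : H984H.path ω (k + 1) = ((X, 0), .nw)) : exc ω ρ k + 1 ≤ exc ω ρ (k + 1) := by
  unfold exc
  apply Finset.card_lt_card
  rw [Finset.ssubset_iff_of_subset]
  · refine ⟨X.toNat, ?_, ?_⟩
    · rw [Finset.mem_filter, Finset.mem_Icc]
      refine ⟨⟨by omega, by omega⟩, k + 1, le_rfl, ?_⟩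
      rw [h, Int.toNat_of_nonneg hX.le]
    · rw [Finset.mem_filter]
      rintro ⟨_, j, hj, h2⟩
      rw [Int.toNat_of_nonneg hX.le, ← h] at h2
      exact H984H.path_inj ω (by omega) h2
  · intro Y hY
    rw [Finset.mem_filter] at hY ⊢
    obtain ⟨h1, j, hj, h2⟩ := hY
    exact ⟨h1, j, by omega, h2⟩

/-- The two paths are synchronised, or the path is on an excursion at a dangling edge. -/
def Inv (D : H984N.Dm) (ω : H984H.Conf) (ρ k : ℕ) : Prop :=
  ∃ m : ℕ, m ≤ D.len (fn D ω) ∧ m ≤ k ∧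
    ((H984H.path ω k = Th (W D (fn D ω) m) ∧ k ≤ m + 4 * exc ω ρ k) ∨
    ∃ X : ℤ, 0 < X ∧ Th (W D (fn D ω) m) = ((X, 1), .sw) ∧ ω (X, 0, false) = true ∧
      ((H984H.path ω k = ((X, 0), .nw) ∧ k + 3 ≤ m + 4 * exc ω ρ k) ∨
      (H984H.path ω k = ((X, 0), .sw) ∧ k + 2 ≤ m + 4 * exc ω ρ k) ∨
      (H984H.path ω k = ((X, 0), .se) ∧ k + 1 ≤ m + 4 * exc ω ρ k) ∨
      (H984H.path ω k = ((X, 0), .ne) ∧ k ≤ m + 4 * exc ω ρ k)))

theorem lt_len {D : H984N.Dm} {ω : H984H.Conf} {m : ℕ} (hm : m ≤ D.len (fn D ω))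
    (h : (Th (W D (fn D ω) m)).2 ≠ .se ∨ (Th (W D (fn D ω) m)).1.2 ≠ D.h + 1) :
    m < D.len (fn D ω) := by
  rcases hm.lt_or_eq with h1 | h1
  · exact h1
  · exfalso
    have h2 : W D (fn D ω) m = D.start := by
      unfold W
      rw [h1, Nat.sub_self]
      rfl
    rw [h2] at h
    simp [Th, H984N.Dm.start] at h

theorem inv_succ {D : H984N.Dm} (hD : D.Ok) {ρ : ℕ} (h1 : (ρ : ℤ) ≤ -D.l) (h2 : (ρ : ℤ) ≤ D.r)
    (h3 : (ρ : ℤ) ≤ D.h) (ω : H984H.Conf) {k : ℕ}
    (hb : H984N.sd (H984H.path ω k).1 (0, 0) < (ρ : ℤ) - 1) (h : Inv D ω ρ k) :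
    Inv D ω ρ (k + 1) := by
  have hmono := exc_mono ω ρ (show k ≤ k + 1 by omega)
  obtain ⟨m, hm, hmk, ⟨hp, hk⟩ | ⟨X, hX, hW, hω, hc⟩⟩ := h
  · have hlt : m < D.len (fn D ω) := by
      apply lt_len hm
      right
      intro he
      rw [hp] at hb
      unfold H984N.sd at hb
      have := le_max_right |(Th (W D (fn D ω) m)).1.1 - 0| |(Th (W D (fn D ω) m)).1.2 - 0|
      rw [he] at this
      have h4 := le_abs_self (D.h + 1 - 0)
      simp only at hb
      rw [he] at hb
      omega
    have hb' := hb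
    rw [hp] at hb'
    rcases same hD h1 h2 h3 ω hm hb' with hs | ⟨X, hX, hW, hω⟩
    · refine ⟨m + 1, hlt, by omega, Or.inl ⟨?_, by omega⟩⟩
      rw [H984H.path_succ, hp, hs, TW_succ D _ hlt]
    · have hnext : H984H.path ω (k + 1) = ((X, 0), .nw) := by
        rw [H984H.path_succ, hp, hW]
        have : ((X, (1:ℤ) - 1, false) : Edg) ∈ H984H.opn ω := by
          rw [opn_false]; simpa using hω
        simp only [H984H.step, this, if_true]
        simp
      have hXρ : X ≤ ρ := by
        rw [hW] at hb'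
        unfold H984N.sd at hb'
        have := (max_lt_iff.1 hb').1
        simp only [sub_zero] at this
        have := (abs_lt.1 this).2
        omega
      have he := exc_succ ω hX hXρ hnext
      exact ⟨m, hm, by omega, Or.inr ⟨X, hX, hW, hω, Or.inl ⟨hnext, by omega⟩⟩⟩
  · have hlt : m < D.len (fn D ω) := lt_len hm (Or.inl (by rw [hW]; simp))
    rcases hc with ⟨hp, hk⟩ | ⟨hp, hk⟩ | ⟨hp, hk⟩ | ⟨hp, hk⟩
    · refine ⟨m, hm, by omega, Or.inr ⟨X, hX, hW, hω, Or.inr (Or.inl ⟨?_, by omega⟩)⟩⟩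
      rw [H984H.path_succ, hp]
      have : ((X - 1, 0, true) : Edg) ∉ H984H.opn ω := by
        rw [opn_true]; omega
      simp only [H984H.step, this, if_false]
    · refine ⟨m, hm, by omega, Or.inr ⟨X, hX, hW, hω, Or.inr (Or.inr (Or.inl ⟨?_, by omega⟩))⟩⟩
      rw [H984H.path_succ, hp]
      have : ((X, 0 - 1, false) : Edg) ∉ H984H.opn ω := by
        rw [opn_false]; omega
      simp only [H984H.step, this, if_false]
    · refine ⟨m, hm, by omega, Or.inr ⟨X, hX, hW, hω, Or.inr (Or.inr (Or.inr ⟨?_, by omega⟩))⟩⟩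
      rw [H984H.path_succ, hp]
      have : ((X, 0, true) : Edg) ∉ H984H.opn ω := by
        rw [opn_true]; omega
      simp only [H984H.step, this, if_false]
    · refine ⟨m + 1, hlt, by omega, Or.inl ⟨?_, by omega⟩⟩
      rw [H984H.path_succ, hp, TW_succ D _ hlt, hW]
      have e1 : ((X, 0, false) : Edg) ∈ H984H.opn ω := by
        rw [opn_false]; exact ⟨le_rfl, hω⟩
      have hXl : D.l ≤ -X ∧ -X < D.r := by
        rw [hp] at hb
        unfold H984N.sd at hb
        have := (max_lt_iff.1 hb).1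
        simp only [sub_zero] at this
        have := (abs_lt.1 this).2
        have := hD.r_pos
        constructor <;> omega
      have e2 : ((X, (1:ℤ) - 1, false) : Edg) ∉ dl (D.cfg (fn D ω)) := by
        rw [dl_false ω hXl.1 hXl.2 (by norm_num) (by have := hD.h_pos; omega)]
        simp [hX]
      simp only [H984H.step, e1, e2, if_true, if_false]
      simp

theorem place_Th (σ : St) : dist (H984H.place (Th σ)) (rf (H984N.pos 1 σ)) ≤ 1 := by
  obtain ⟨⟨x, y⟩, q⟩ := σ
  rw [Complex.dist_eq]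
  cases q <;>
  · simp only [Th, H984H.place, H984N.pos, rf, one_mul]
    refine (Complex.norm_le_abs_re_add_abs_im _).trans ?_
    simp only [Complex.sub_re, Complex.sub_im]
    push_cast
    ring_nf
    norm_num

theorem inv_all {D : H984N.Dm} (hD : D.Ok) {ρ : ℕ} (h1 : (ρ : ℤ) ≤ -D.l) (h2 : (ρ : ℤ) ≤ D.r)
    (h3 : (ρ : ℤ) ≤ D.h) (ω : H984H.Conf) (k : ℕ)
    (hb : ∀ j < k, H984N.sd (H984H.path ω j).1 (0, 0) < (ρ : ℤ) - 1) : Inv D ω ρ k := by
  induction k with
  | zero =>
    refine ⟨0, Nat.zero_le _, le_rfl, Or.inl ⟨?_, by omega⟩⟩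
    rw [W_zero hD (fn_sub D ω)]
    simp [H984H.path, Th]
  | succ k ih =>
    exact inv_succ hD h1 h2 h3 ω (hb k (by omega)) (ih fun j hj => hb j (by omega))

theorem s_cpl : S_CPL := by
  intro D hD ρ _ h1 h2 h3 ω k hb
  obtain ⟨m, hm, hmk, h⟩ := inv_all hD h1 h2 h3 ω k fun j hj => hb j hj.le
  have he := exc_le ω ρ k
  have hpl := place_Th (W D (fn D ω) m)
  have hW : W D (fn D ω) m = D.walk (fn D ω) (D.len (fn D ω) - m) := rfl
  refine ⟨m, hmk, ?_, hm, ?_⟩
  · rcases h with h | ⟨X, _, _, _, h | h | h | h⟩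
    · have := h.2; omega
    · have := h.2; omega
    · have := h.2; omega
    · have := h.2; omega
    · have := h.2; omega
  · rw [← hW]
    refine (dist_triangle _ (H984H.place (Th (W D (fn D ω) m))) _).trans ?_
    have key : dist (H984H.gam ω k) (H984H.place (Th (W D (fn D ω) m))) ≤ 2 := by
      unfold H984H.gam
      rcases h with h | ⟨X, _, hV, _, h | h | h | h⟩
      · rw [h.1, dist_self]; norm_num
      all_goals
        rw [h.1, hV, Complex.dist_eq]
        refine (Complex.norm_le_abs_re_add_abs_im _).trans ?_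
        simp only [H984H.place, Complex.sub_re, Complex.sub_im]
        push_cast
        ring_nf
        norm_num
    linarith

end Pool.Agent.L0h89.HT
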