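import Pool.Agent.L0h89.HT.StmL
import Pool.Agent.L0h76.HT.E

/-!
# HT, module KLO: the local form of the last part of `S_KCL`
-/

set_option autoImplicit false

namespace Pool.Agent.L0h89.HT

open MeasureTheory Filter Topology

theorem s_KLO : S_KLO := by
  intro r lam q hlam hq hK s hs
  set L : ℝ := lam ^ (7/4 : ℝ) * q.2.2 with hL
  have hlp : 0 < lam ^ (7/4 : ℝ) := Real.rpow_pos_of_pos hlam _
  have hLpos : 0 < L := mul_pos hlp hq
  have key : ∃ u : unitInterval, (u : ℝ) * L + s - L = 0 ∧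
      q.1 s = (lam : ℂ) * rf (q.2.1 u) := by
    have h1 : ∀ m : ℕ, ∃ u : unitInterval, |(u : ℝ) * L + s - L| ≤ 1 / ((m : ℝ) + 1) ∧
        dist (q.1 s) ((lam : ℂ) * rf (q.2.1 u)) ≤ 1 / ((m : ℝ) + 1) := by
      intro m
      exact hK m s hs
    choose u hu1 hu2 using h1
    obtain ⟨v, -, φ, hφ, hv⟩ := isCompact_univ.tendsto_subseq (fun m => Set.mem_univ (u m))
    have h0 : Tendsto (fun m : ℕ => 1 / (((φ m : ℕ) : ℝ) + 1)) atTop (𝓝 0) :=
      tendsto_one_div_add_atTop_nhds_zero_nat.comp hφ.tendsto_atTop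
    have hv' : Tendsto (fun m => ((u (φ m) : unitInterval) : ℝ)) atTop (𝓝 (v : ℝ)) :=
      (continuous_subtype_val.tendsto v).comp hv
    refine ⟨v, ?_, ?_⟩
    · have h2 : Tendsto (fun m => |((u (φ m) : unitInterval) : ℝ) * L + s - L|) atTop
          (𝓝 |(v : ℝ) * L + s - L|) :=
        (((hv'.mul_const L).add_const _).sub_const L).abs
      have h3 : |(v : ℝ) * L + s - L| ≤ 0 := le_of_tendsto_of_tendsto' h2 h0 fun m => hu1 (φ m)
      exact abs_nonpos_iff.mp h3
    · have hc : Continuous fun w : unitInterval => (lam : ℂ) * rf (q.2.1 w) :=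
        continuous_const.mul (Pool.Agent.L0h76.HT.rf_cont.comp q.2.1.continuous)
      have h2 : Tendsto (fun m => dist (q.1 s) ((lam : ℂ) * rf (q.2.1 (u (φ m))))) atTop
          (𝓝 (dist (q.1 s) ((lam : ℂ) * rf (q.2.1 v)))) :=
        tendsto_const_nhds.dist ((hc.tendsto v).comp hv)
      have h3 : dist (q.1 s) ((lam : ℂ) * rf (q.2.1 v)) ≤ 0 :=
        le_of_tendsto_of_tendsto' h2 h0 fun m => hu2 (φ m)
      exact dist_le_zero.mp h3
  obtain ⟨v, hv1, hv2⟩ := key
  refine ⟨?_, ?_⟩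
  · have := mul_nonneg v.2.1 hLpos.le
    linarith
  · intro u hu
    have : v = u := by
      apply Subtype.ext
      rw [hu]
      show (v : ℝ) = 1 - s / L
      field_simp
      linarith
    rw [← this]
    exact hv2

end Pool.Agent.L0h89.HT
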