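import Pool.Agent.L0h89.HT.Stm

/-!
Transfer of properties: from `p = (g, T)` to `(f, 1)`, where `f` is the reflection and time
reversal of `g`, scaled by `lam`, restricted to natural times at most `1`.
All statements `T_…` are deterministic.
-/

set_option autoImplicit false

namespace Pool.Agent.L0h89.HT

open H984N MeasureTheory Filter Topology
open scoped ENNReal NNReal

/-- The time change `s ↦ 1 - s / L`. -/
noncomputable def tau (L : ℝ) (s : unitInterval) : unitInterval :=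
  Set.projIcc 0 1 zero_le_one (1 - (s : ℝ) / L)

/-- TAU: basic facts on the time change. -/
def S_TAU : Prop := ∀ L : ℝ, 1 ≤ L →
  (∀ s : unitInterval, (tau L s : ℝ) = 1 - s / L) ∧ MeasurableEmbedding (tau L) ∧
  Set.range (tau L) = Set.Icc (tau L 1) 1 ∧
  (volume : Measure unitInterval).map (tau L) =
    ENNReal.ofReal L • (volume : Measure unitInterval).restrict (Set.Icc (tau L 1) 1) ∧
  (∀ S : Set unitInterval, volume (tau L '' S) = ENNReal.ofReal (1 / L) * volume S) ∧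
  (∀ S : Set unitInterval, dimH (tau L '' S) = dimH S)

/-- Exact modulus of continuity. -/
def Mod (c C : ℝ) (p : X) : Prop :=
  ∀ a b : unitInterval, a < b → ∃ h0 : ℝ, 0 < h0 ∧ ∀ h : ℝ, 0 < h → h < h0 →
    (∃ s t : unitInterval, a ≤ s ∧ s ≤ t ∧ t ≤ b ∧ ((t : ℝ) - s) * p.2 ≤ h ∧
      c * (h ^ (4/7 : ℝ) * Real.log (1 / h) ^ (3/7 : ℝ)) ≤ dist (p.1 s) (p.1 t)) ∧
    (∀ s t : unitInterval, |(s : ℝ) - t| * p.2 ≤ h →
      dist (p.1 s) (p.1 t) ≤ C * (h ^ (4/7 : ℝ) * Real.log (1 / h) ^ (3/7 : ℝ)))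

def T_Mod : Prop := ∀ c C : ℝ, 0 < c → 0 < C → ∃ c' C' : ℝ, 0 < c' ∧ 0 < C' ∧
  ∀ (lam : ℝ) (f : C(unitInterval, ℂ)) (p : X), 0 < lam → Rev lam f p →
    Mod c C p → Mod c' C' (f, 1)

/-- `χ(h) = h ^ (4/7) (log (1/h)) ^ (-1/14)` -/
noncomputable def chi (h : ℝ) : ℝ := h ^ (4/7 : ℝ) / Real.log (1 / h) ^ (1/14 : ℝ)

/-- The smallest diameter of the pieces of given duration. -/
def Slo (c C : ℝ) (p : X) : Prop :=
  (∀ᶠ h : ℝ in 𝓝[>] 0, ∀ u v : unitInterval, u ≤ v → p.2 * ((v : ℝ) - u) = h →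
    c * chi h ≤ Metric.diam (p.1 '' Set.Icc u v)) ∧
  ∀ s t : unitInterval, s < t → ∀ᶠ h : ℝ in 𝓝[>] 0, ∃ u v : unitInterval,
    s ≤ u ∧ u ≤ v ∧ v ≤ t ∧ p.2 * ((v : ℝ) - u) = h ∧
      Metric.diam (p.1 '' Set.Icc u v) ≤ C * chi h

def T_Slo : Prop := ∀ c C : ℝ, 0 < c → 0 < C → ∃ c' C' : ℝ, 0 < c' ∧ 0 < C' ∧
  ∀ (lam : ℝ) (f : C(unitInterval, ℂ)) (p : X), 0 < lam → Rev lam f p →
    Slo c C p → Slo c' C' (f, 1)

/-- The maximal time spent in discs. -/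
def Occ (c C : ℝ) (p : X) : Prop :=
  ∀ a b : unitInterval, a < b → ∃ r0 : ℝ, 0 < r0 ∧ ∀ r : ℝ, 0 < r → r < r0 →
    (∃ z : ℂ, c * (r ^ (7/4 : ℝ) * Real.log (1 / r) ^ (1/8 : ℝ)) ≤
      p.2 * (volume {s : unitInterval | (a ≤ s ∧ s ≤ b) ∧ dist (p.1 s) z ≤ r}).toReal) ∧
    (∀ z : ℂ, p.2 * (volume {s : unitInterval | dist (p.1 s) z ≤ r}).toReal ≤
      C * (r ^ (7/4 : ℝ) * Real.log (1 / r) ^ (1/8 : ℝ)))

def T_Occ : Prop := ∀ c C : ℝ, 0 < c → 0 < C → ∃ c' C' : ℝ, 0 < c' ∧ 0 < C' ∧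
  ∀ (lam : ℝ) (f : C(unitInterval, ℂ)) (p : X), 0 < lam → Rev lam f p →
    Occ c C p → Occ c' C' (f, 1)

/-- `max 1 (log log (1/x))` -/
noncomputable def ll (x : ℝ) : ℝ := max 1 (Real.log (Real.log (1 / x)))

/-- `ψ(x) = x ^ (7/4) / (log log (1/x)) ^ (3/4)` -/
noncomputable def psi (x : ℝ) : ℝ := x ^ (7/4 : ℝ) / ll x ^ (3/4 : ℝ)

/-- The `ψ`-variation of the curve `f` on `[s, t]`. -/
noncomputable def psiVariation (f : C(unitInterval, ℂ)) (s t : unitInterval) : ℝ≥0∞ :=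
  ⨅ η : ℝ, ⨅ _ : 0 < η, ⨆ n : ℕ, ⨆ τ : ℕ → unitInterval,
    ⨆ _ : Monotone τ ∧ τ 0 = s ∧ τ n = t ∧ ∀ i < n, (τ (i + 1) : ℝ) - τ i ≤ η,
    ENNReal.ofReal (∑ i ∈ Finset.range n, psi (dist (f (τ i)) (f (τ (i + 1)))))

def Var (c C : ℝ) (p : X) : Prop := ∀ s t : unitInterval, s ≤ t →
  ENNReal.ofReal (c * (p.2 * ((t : ℝ) - s))) ≤ psiVariation p.1 s t ∧
  psiVariation p.1 s t ≤ ENNReal.ofReal (C * (p.2 * ((t : ℝ) - s)))

def T_Var : Prop := ∀ (c C : ℝ) (f : C(unitInterval, ℂ)) (p : X), 0 < c → 0 < C → Rev 1 f p →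
  Var c C p → Var c C (f, 1)

/-- The gauge function `r ^ (7/4) (log log (1/r)) ^ (1/8)`. -/
noncomputable def gauge (r : ℝ≥0∞) : ℝ≥0∞ :=
  ENNReal.ofReal (r.toReal ^ (7/4 : ℝ) * Real.log (Real.log (1 / r.toReal)) ^ (1/8 : ℝ))

def Gau (c C : ℝ) (p : X) : Prop := ∀ S : Set unitInterval,
  ENNReal.ofReal (c * p.2) * volume S ≤ Measure.mkMetric gauge (p.1 '' S) ∧
  Measure.mkMetric gauge (p.1 '' S) ≤ ENNReal.ofReal (C * p.2) * volume S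

def T_Gau : Prop := ∀ (c C : ℝ) (f : C(unitInterval, ℂ)) (p : X), 0 < c → 0 < C → Rev 1 f p →
  Gau c C p → Gau c C (f, 1)

/-- `φ(h) = h ^ (4/7) (log log (1/h)) ^ (3/7)` -/
noncomputable def phi (h : ℝ) : ℝ := h ^ (4/7 : ℝ) * ll h ^ (3/7 : ℝ)

/-- Law of the iterated logarithm at almost every time. -/
def LIL (c C : ℝ) (p : X) : Prop := ∀ᵐ t : unitInterval,
  (∀ᶠ s : unitInterval in 𝓝 t, dist (p.1 s) (p.1 t) ≤ C * phi (p.2 * |(s : ℝ) - t|)) ∧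
  (∃ᶠ s : unitInterval in 𝓝 t, c * phi (p.2 * |(s : ℝ) - t|) < dist (p.1 s) (p.1 t))

def T_LIL : Prop := ∀ (c C : ℝ) (f : C(unitInterval, ℂ)) (p : X), 0 < c → 0 < C → Rev 1 f p →
  LIL c C p → LIL c C (f, 1)

/-- `χ(h) = h ^ (4/7) (log log (1/h)) ^ (-1/14)` -/
noncomputable def chi2 (h : ℝ) : ℝ := h ^ (4/7 : ℝ) / ll h ^ (1/14 : ℝ)

/-- Chung's law at almost every time. -/
def Chu (c C : ℝ) (p : X) : Prop := ∀ᵐ t : unitInterval,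
  (∀ᶠ h : ℝ in 𝓝[>] 0, ∀ s : unitInterval, p.2 * |(s : ℝ) - t| = h →
    ∃ x ∈ Set.uIcc s t, c * chi2 h < dist (p.1 x) (p.1 t)) ∧
  (∃ᶠ h : ℝ in 𝓝[>] 0, ∀ s : unitInterval, p.2 * |(s : ℝ) - t| ≤ h →
    dist (p.1 s) (p.1 t) ≤ C * chi2 h)

def T_Chu : Prop := ∀ (c C : ℝ) (f : C(unitInterval, ℂ)) (p : X), 0 < c → 0 < C → Rev 1 f p →
  Chu c C p → Chu c C (f, 1)

/-- `u` is a `θ`-fast time of `p = (f, T)`. -/
def Fast (θ : ℝ) (p : X) (u : unitInterval) : Prop :=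
  ∃ᶠ h : ℝ in 𝓝[>] 0, ∃ v : unitInterval, p.2 * |(v : ℝ) - u| ≤ h ∧
    θ * (h ^ (4/7 : ℝ) * Real.log (1 / h) ^ (3/7 : ℝ)) ≤ dist (p.1 v) (p.1 u)

/-- Fast times; `F θ` is a pair of bounds. -/
def Fst (F : ℝ → ℝ≥0∞ × ℝ≥0∞) (θ₀ : ℝ) (p : X) : Prop := ∀ θ : ℝ, 0 < θ → θ ≤ θ₀ →
  ∀ s t : unitInterval, s < t →
    ((F θ).1 ≤ dimH {u | u ∈ Set.Icc s t ∧ Fast θ p u} ∧
      dimH {u | u ∈ Set.Icc s t ∧ Fast θ p u} ≤ (F θ).2) ∧
    (7 / 4 * (F θ).1 ≤ dimH (p.1 '' {u | u ∈ Set.Icc s t ∧ Fast θ p u}) ∧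
      dimH (p.1 '' {u | u ∈ Set.Icc s t ∧ Fast θ p u}) ≤ 7 / 4 * (F θ).2)

/-- The end points cause no difficulty: near an interior time the two notions agree; the end
points are countable (`dimH` does not see them; use a slightly smaller interval for the lower
bound). -/
def T_Fst : Prop := ∀ (F : ℝ → ℝ≥0∞ × ℝ≥0∞) (θ₀ : ℝ) (f : C(unitInterval, ℂ)) (p : X), Rev 1 f p →
  Fst F θ₀ p → Fst F θ₀ (f, 1)

/-- `u` is a `θ`-slow time of `p = (f, T)`. -/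
def Slow (θ : ℝ) (p : X) (u : unitInterval) : Prop :=
  ∃ᶠ h : ℝ in 𝓝[>] 0, ∀ v : unitInterval, p.2 * |(v : ℝ) - u| ≤ h →
    dist (p.1 v) (p.1 u) ≤ θ * chi h

/-- Slow times; `F θ` is a pair of bounds. -/
def Slw (F : ℝ → ℝ≥0∞ × ℝ≥0∞) (θ₀ : ℝ) (p : X) : Prop := ∀ θ : ℝ, θ₀ ≤ θ →
  ∀ s t : unitInterval, s < t →
    ((F θ).1 ≤ dimH {u | u ∈ Set.Icc s t ∧ Slow θ p u} ∧
      dimH {u | u ∈ Set.Icc s t ∧ Slow θ p u} ≤ (F θ).2) ∧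
    (7 / 4 * (F θ).1 ≤ dimH (p.1 '' {u | u ∈ Set.Icc s t ∧ Slow θ p u}) ∧
      dimH (p.1 '' {u | u ∈ Set.Icc s t ∧ Slow θ p u}) ≤ 7 / 4 * (F θ).2)

def T_Slw : Prop := ∀ (F : ℝ → ℝ≥0∞ × ℝ≥0∞) (θ₀ : ℝ) (f : C(unitInterval, ℂ)) (p : X), Rev 1 f p →
  Slw F θ₀ p → Slw F θ₀ (f, 1)

/-- Upper bound for the time spent near almost every point, along a sequence of scales. -/
def Avt (A : ℕ → ℝ) (p : X) : Prop := ∀ᵐ t : unitInterval, ∀ᶠ j : ℕ in atTop, p.2 *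
  (volume {u : unitInterval | dist (p.1 u) (p.1 t) ≤ ((1:ℝ)/2) ^ j}).toReal < A j

def T_Avt : Prop := ∀ (A : ℕ → ℝ) (f : C(unitInterval, ℂ)) (p : X), Rev 1 f p →
  Avt A p → Avt A (f, 1)

/-! ### projections and distances -/

/-- The coordinate in the direction `u`. -/
noncomputable def co (u z : ℂ) : ℝ := ((starRingEnd ℂ) u * z).re

/-- The coordinates in all directions and the distances to all points. -/
def Obs : Set (ℂ → ℝ) :=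
  {g | (∃ u : ℂ, ‖u‖ = 1 ∧ g = co u) ∨ ∃ z0 : ℂ, g = fun z => dist z z0}

/-- The bounds for the image and for the graph over `E`. -/
def Bounds (f : C(unitInterval, ℂ)) (g : ℂ → ℝ) (E : Set unitInterval) : Prop :=
  (7 / 4 * dimH E ≤ dimH ((fun s => g (f s)) '' E) + 3 / 4 ∧
    dimH ((fun s => g (f s)) '' E) ≤ min 1 (7 / 4 * dimH E)) ∧
  (7 / 4 * dimH E ≤ dimH ((fun s => (s, g (f s))) '' E) + 9 / 28 ∧
    dimH E ≤ dimH ((fun s => (s, g (f s))) '' E) ∧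
    dimH ((fun s => (s, g (f s))) '' E) ≤ min (7 / 4 * dimH E) (dimH E + 3 / 7))

/-- All sets of times, all intervals and all level sets. -/
def Concl (f : C(unitInterval, ℂ)) (g : ℂ → ℝ) : Prop :=
  (∀ E : Set unitInterval, Bounds f g E) ∧
  (∀ s t : unitInterval, s < t → dimH ((fun s => (s, g (f s))) '' Set.Icc s t) = 10 / 7) ∧
  ∀ x : ℝ, dimH {s : unitInterval | g (f s) = x} ≤ 3 / 7 ∧
    dimH (Set.range f ∩ {z | g z = x}) ≤ 3 / 4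

def T_Prj : Prop := ∀ (f : C(unitInterval, ℂ)) (p : X), Rev 1 f p →
  (∀ g ∈ Obs, Concl p.1 g) → ∀ g ∈ Obs, Concl f g

/-! ### energy -/

/-- The natural time which the piece `f ([s, t])` spends within distance `r` of `f u`. -/
noncomputable def near (p : X) (s t : unitInterval) (r : ℝ) (u : unitInterval) : ℝ :=
  p.2 * (volume {v : unitInterval | (s ≤ v ∧ v ≤ t) ∧ dist (p.1 u) (p.1 v) ≤ r}).toReal

/-- The `k`-energy of a measure. -/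
noncomputable def energy (k : ℝ → ENNReal) (ν : Measure ℂ) : ENNReal :=
  ∫⁻ x, ∫⁻ y, k (dist x y) ∂ν ∂ν

/-- `E` carries a probability measure of finite `k`-energy (positive `k`-capacity). -/
def PosCap (k : ℝ → ENNReal) (E : Set ℂ) : Prop :=
  ∃ ν : Measure ℂ, IsProbabilityMeasure ν ∧ ν Eᶜ = 0 ∧ energy k ν ≠ ⊤

def Enp (c C : ℝ) (p : X) : Prop :=
  (∀ᶠ r : ℝ in 𝓝[>] 0, ∀ s t : unitInterval, s ≤ t →
    C * (r ^ (7/4 : ℝ) * Real.log (1 / r)) ≤ p.2 * ((t:ℝ) - s) →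
      c * r ^ (7/4 : ℝ) * ((t:ℝ) - s) ≤ ∫ u in Set.Icc s t, near p s t r u ∧
      ∫ u in Set.Icc s t, near p s t r u ^ 7 ≤ (C * r ^ (7/4 : ℝ)) ^ 7 * ((t:ℝ) - s)) ∧
  ∀ k : ℝ → ENNReal, AntitoneOn k (Set.Ici 0) →
    ∀ E : Set unitInterval, MeasurableSet E → volume E ≠ 0 →
      (PosCap k (p.1 '' E) ↔
        ∫⁻ r in Set.Ioo (0:ℝ) 1, k r * ENNReal.ofReal (r ^ (3/4 : ℝ)) ≠ ⊤)

def T_Enp : Prop := ∀ (c C : ℝ) (f : C(unitInterval, ℂ)) (p : X), 0 < c → 0 < C → Rev 1 f p →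
  Enp c C p → Enp c C (f, 1)

/-! ### affine copies -/

/-- The affine maps of the plane. -/
noncomputable def aff (α γ β z : ℂ) : ℂ := α * z + γ * (starRingEnd ℂ) z + β

end Pool.Agent.L0h89.HT
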