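import Pool.Agent.L0h89.HT.StmJ

/-!
Statements: locality and reversibility of the limits, convergence in the half-plane from
convergence in one rectangle, scale invariance.
-/

set_option autoImplicit false

namespace Pool.Agent.L0h89.HT

open MeasureTheory Filter Topology

/-- Joint limits for general rectangles and radii (helper37). -/
def S_JNTR : Prop := ∀ (R : H984N.Rect) (ρ lam r : ℝ), 0 < ρ → ρ ≤ R.A → ρ ≤ R.B → ρ ≤ R.H →
  0 < lam → r < lam * ρ → ∀ μ : ProbabilityMeasure C(unitInterval, ℂ), IsLimH μ →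
    ∃ P : ProbabilityMeasure (C(unitInterval, ℂ) × H984N.X),
      (P : Measure (C(unitInterval, ℂ) × H984N.X)).map Prod.fst = (μ : Measure _) ∧
      (∃ ν : ProbabilityMeasure H984N.X, IsLimN R ν ∧
        (P : Measure (C(unitInterval, ℂ) × H984N.X)).map Prod.snd = (ν : Measure _)) ∧
      ∀ η : ℝ, 0 < η →
        ∀ᵐ q ∂(P : Measure (C(unitInterval, ℂ) × H984N.X)), q ∈ K r lam η

/-- KLO: the local form of the last part of `S_KCL`. -/
def S_KLO : Prop := ∀ (r lam : ℝ) (q : C(unitInterval, ℂ) × H984N.X), 0 < lam → 0 < q.2.2 →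
  (∀ m : ℕ, q ∈ K r lam (1 / ((m : ℝ) + 1))) →
  ∀ s : unitInterval, (∀ v : unitInterval, v ≤ s → ‖q.1 v‖ < r) →
    (s : ℝ) ≤ lam ^ (7/4 : ℝ) * q.2.2 ∧
    ∀ u : unitInterval, (u : ℝ) = 1 - s / (lam ^ (7/4 : ℝ) * q.2.2) →
      q.1 s = (lam : ℂ) * rf (q.2.1 u)

/-- UNQ: if the limit in one rectangle is unique, then the limit in the half-plane is unique.
Proof: let `r0 < R.A, R.B, R.H`; for all `lam > 0` and all Borel sets `A`, by `S_JNTR` (with
`r = lam * r0`) and `S_KLO`, `μ (A ∩ {‖f‖ < lam * r0}) = ν B` where `B` is the set of the `p` such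
that `1 ≤ lam ^ (7/4) * p.2` and the curve `s ↦ lam * rf (p.1 (1 - s / (lam ^ (7/4) * p.2)))` is in
`A` and has norm less than `lam * r0`; `lam → ∞`. (The time is positive almost surely by
`MP_fe58d8_pr.NaturalCurve`, taken as a hypothesis here.) -/
def S_UNQ : Prop := ∀ R : H984N.Rect,
  (∀ ν : ProbabilityMeasure H984N.X, IsLimN R ν → ∀ᵐ p ∂(ν : Measure H984N.X), 0 < p.2) →
  (∀ ν ν' : ProbabilityMeasure H984N.X, IsLimN R ν → IsLimN R ν' → ν = ν') →
  ∀ μ μ' : ProbabilityMeasure C(unitInterval, ℂ), IsLimH μ → IsLimH μ' → μ = μ'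

/-- The curve on `[0, c]`, rescaled. -/
noncomputable def scl (c : unitInterval) (f : C(unitInterval, ℂ)) : C(unitInterval, ℂ) where
  toFun s := (((c : ℝ) ^ (-(4/7) : ℝ) : ℝ) : ℂ) * f (c * s)
  continuous_toFun := by fun_prop

/-- SCL: if the laws converge, then the limit is scale invariant.
Proof: for `m = ⌊n / c⌋` the curves `scl c (curve m ω)` and `curve n ω` are at distance at most
`ε n * (1 + ‖curve n ω‖)` with `ε n → 0`. -/
def S_SCL : Prop := ∀ μ : ProbabilityMeasure C(unitInterval, ℂ),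
  Tendsto H984H.lawH atTop (𝓝 μ) → ∀ c : unitInterval, 0 < c →
    (μ : Measure C(unitInterval, ℂ)).map (scl c) = (μ : Measure C(unitInterval, ℂ))

end Pool.Agent.L0h89.HT
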