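import Pool.Agent.L0h89.HT.Cpl
import Pool.Agent.L0h37.HT.G
import Pool.Agent.L0h37.HT.D
import Pool.Agent.L0h76.HT.E
import Pool.Agent.Results.MP_6c8efb_pr.Displacement

/-!
The transfer principle without hypotheses.
-/

set_option autoImplicit false

namespace Pool.Agent.L0h89.HT

open MeasureTheory Filter Topology

theorem jnt : S_JNT := by
  obtain ⟨⟨c, hc, hL⟩, ⟨C, hC, hU⟩, -⟩ := Pool.Agent.Results.MP_6c8efb_pr.Displacement.inputs
  exact Pool.Agent.L0h37.HT.s_jnt s_cpl Pool.Agent.L0h76.HT.s_KCL hc hC hL hU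

theorem trf : S_TRF := Pool.Agent.L0h37.HT.s_trf jnt Pool.Agent.L0h76.HT.s_KCL

theorem tr1 : S_TR1 := Pool.Agent.L0h37.HT.s_tr1 trf

theorem tr2 : S_TR2 := Pool.Agent.L0h37.HT.s_tr2 trf

/-- Weak limits exist along a subsequence of every sequence. -/
theorem lim_ex : ∀ φ : ℕ → ℕ, Tendsto φ atTop atTop → ∃ ψ : ℕ → ℕ, StrictMono ψ ∧
    ∃ μ : ProbabilityMeasure C(unitInterval, ℂ),
      Tendsto (fun i => H984H.lawH (φ (ψ i))) atTop (𝓝 μ) :=
  Pool.Agent.Results.MP_6c8efb_pr.Displacement.result.2.2.2.2.1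

end Pool.Agent.L0h89.HT
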