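import Pool.Agent.L0h89.HT.StmL
import Pool.Agent.L0h76.HT.E

/-!
# HT, module UNQ: the limit in one rectangle determines the limits in the half-plane
-/

set_option autoImplicit false

namespace Pool.Agent.L0h89.HT

open MeasureTheory Filter Topology

/-- The reflection and time reversal of `p`, scaled by `lam`, as a continuous function of `p`. -/
noncomputable def rvm (lam : ℝ) : C(H984N.X × unitInterval, ℂ) where
  toFun x := (lam : ℂ) * rf (x.1.1 (Set.projIcc 0 1 zero_le_one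
    (1 - (x.2 : ℝ) / max 1 (lam ^ (7/4 : ℝ) * x.1.2))))
  continuous_toFun := by
    have h1 : Continuous fun x : H984N.X × unitInterval =>
        (1 - (x.2 : ℝ) / max 1 (lam ^ (7/4 : ℝ) * x.1.2)) := by
      refine continuous_const.sub (Continuous.div ?_ ?_ ?_)
      · exact continuous_subtype_val.comp continuous_snd
      · exact continuous_const.max (continuous_const.mul (continuous_snd.comp continuous_fst))
      · intro x
        have : (1 : ℝ) ≤ max 1 (lam ^ (7/4 : ℝ) * x.1.2) := le_max_left _ _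
        linarith
    have h2 : Continuous fun x : H984N.X × unitInterval =>
        x.1.1 (Set.projIcc 0 1 zero_le_one (1 - (x.2 : ℝ) / max 1 (lam ^ (7/4 : ℝ) * x.1.2))) :=
      Continuous.eval (continuous_fst.comp continuous_fst) (continuous_projIcc.comp h1)
    exact continuous_const.mul (Pool.Agent.L0h76.HT.rf_cont.comp h2)

/-- The reflection and time reversal of `p`, scaled by `lam`. -/
noncomputable def rv (lam : ℝ) (p : H984N.X) : C(unitInterval, ℂ) := (rvm lam).curry p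

lemma rv_cont (lam : ℝ) : Continuous (rv lam) := (rvm lam).curry.continuous

lemma rv_rev (lam : ℝ) (f : C(unitInterval, ℂ)) (p : H984N.X) (h : Rev lam f p) :
    f = rv lam p := by
  obtain ⟨-, h1, h2⟩ := h
  ext s
  have hL : 0 < lam ^ (7/4 : ℝ) * p.2 := by linarith
  have hs : (0 : ℝ) ≤ 1 - s / (lam ^ (7/4 : ℝ) * p.2) ∧
      1 - s / (lam ^ (7/4 : ℝ) * p.2) ≤ 1 := by
    constructor
    · have : (s : ℝ) / (lam ^ (7/4 : ℝ) * p.2) ≤ 1 := by
        rw [div_le_one hL]
        exact s.2.2.trans h1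
      linarith
    · have := div_nonneg s.2.1 hL.le
      linarith
  have h3 := h2 s ⟨1 - s / (lam ^ (7/4 : ℝ) * p.2), hs⟩ rfl
  rw [h3]
  show _ = (lam : ℂ) * rf (p.1 (Set.projIcc 0 1 zero_le_one
    (1 - (s : ℝ) / max 1 (lam ^ (7/4 : ℝ) * p.2))))
  rw [max_eq_right h1, Set.projIcc_of_mem zero_le_one hs]

/-- Both inequalities between the law in the half-plane and the image of the law in the
rectangle. -/
lemma unq_aux (hJ : S_JNTR) (R : H984N.Rect) (ρ lam r : ℝ) (h0 : 0 < ρ) (hA : ρ ≤ R.A)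
    (hB : ρ ≤ R.B) (hH : ρ ≤ R.H) (hlam : 0 < lam) (hr : r < lam * ρ)
    (μ : ProbabilityMeasure C(unitInterval, ℂ)) (hμ : IsLimH μ) :
    ∃ ν : ProbabilityMeasure H984N.X, IsLimN R ν ∧ ∀ A : Set C(unitInterval, ℂ),
      MeasurableSet A →
      (μ : Measure C(unitInterval, ℂ)) A ≤ (ν : Measure H984N.X) (rv lam ⁻¹' A) +
        (μ : Measure C(unitInterval, ℂ)) {f | r ≤ ‖f‖} ∧
      (ν : Measure H984N.X) (rv lam ⁻¹' A) ≤ (μ : Measure C(unitInterval, ℂ)) A +
        (μ : Measure C(unitInterval, ℂ)) {f | r ≤ ‖f‖} := by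
  obtain ⟨P, hP1, ⟨ν, hν, hP2⟩, hK⟩ := hJ R ρ lam r h0 hA hB hH hlam hr μ hμ
  refine ⟨ν, hν, fun A hAm => ?_⟩
  have hae : ∀ᵐ q ∂(P : Measure (C(unitInterval, ℂ) × H984N.X)),
      ‖q.1‖ < r → q.1 = rv lam q.2 := by
    have h1 : ∀ᵐ q ∂(P : Measure (C(unitInterval, ℂ) × H984N.X)), ∀ m : ℕ,
        q ∈ K r lam (1 / ((m : ℝ) + 1)) := by
      rw [ae_all_iff]
      intro m
      exact hK _ (by positivity)
    filter_upwards [h1] with q hq hn
    exact rv_rev lam q.1 q.2 (Pool.Agent.L0h76.HT.s_KCL.2.2 r lam q hlam hn hq)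
  have hN : MeasurableSet {f : C(unitInterval, ℂ) | r ≤ ‖f‖} :=
    (isClosed_le continuous_const continuous_norm).measurableSet
  have hF : MeasurableSet (rv lam ⁻¹' A) := (rv_cont lam).measurable hAm
  have e1 : (μ : Measure C(unitInterval, ℂ)) A =
      (P : Measure (C(unitInterval, ℂ) × H984N.X)) (Prod.fst ⁻¹' A) := by
    rw [← hP1, Measure.map_apply measurable_fst hAm]
  have e2 : (μ : Measure C(unitInterval, ℂ)) {f | r ≤ ‖f‖} =
      (P : Measure (C(unitInterval, ℂ) × H984N.X)) (Prod.fst ⁻¹' {f | r ≤ ‖f‖}) := by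
    rw [← hP1, Measure.map_apply measurable_fst hN]
  have e3 : (ν : Measure H984N.X) (rv lam ⁻¹' A) =
      (P : Measure (C(unitInterval, ℂ) × H984N.X)) (Prod.snd ⁻¹' (rv lam ⁻¹' A)) := by
    rw [← hP2, Measure.map_apply measurable_snd hF]
  rw [e1, e2, e3]
  constructor
  · refine le_trans (measure_mono_ae ?_) (measure_union_le _ _)
    filter_upwards [hae] with q hq
    intro (hqA : q.1 ∈ A)
    by_cases hn : ‖q.1‖ < r
    · left
      show rv lam q.2 ∈ A
      rw [← hq hn]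
      exact hqA
    · right
      exact not_lt.mp hn
  · refine le_trans (measure_mono_ae ?_) (measure_union_le _ _)
    filter_upwards [hae] with q hq
    intro (hqA : rv lam q.2 ∈ A)
    by_cases hn : ‖q.1‖ < r
    · left
      show q.1 ∈ A
      rw [hq hn]
      exact hqA
    · right
      exact not_lt.mp hn

lemma tail_tendsto (μ : ProbabilityMeasure C(unitInterval, ℂ)) :
    Tendsto (fun n : ℕ => (μ : Measure C(unitInterval, ℂ)) {f | (n : ℝ) ≤ ‖f‖}) atTop (𝓝 0) := by
  have h : (⋂ n : ℕ, {f : C(unitInterval, ℂ) | (n : ℝ) ≤ ‖f‖}) = ∅ := by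
    rw [Set.eq_empty_iff_forall_notMem]
    intro f hf
    obtain ⟨n, hn⟩ := exists_nat_gt ‖f‖
    exact absurd (Set.mem_iInter.mp hf n) (not_le.mpr hn)
  have h2 := tendsto_measure_iInter_atTop (μ := (μ : Measure C(unitInterval, ℂ)))
    (s := fun n : ℕ => {f : C(unitInterval, ℂ) | (n : ℝ) ≤ ‖f‖})
    (fun n => (isClosed_le continuous_const continuous_norm).measurableSet.nullMeasurableSet)
    (fun a b hab f (hf : (b : ℝ) ≤ ‖f‖) => le_trans (by exact_mod_cast hab) hf)
    ⟨0, measure_ne_top _ _⟩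
  rw [h, measure_empty] at h2
  exact h2

theorem s_unq (hJ : S_JNTR) : S_UNQ := by
  intro R _ huniq μ μ' hμ hμ'
  have key : ∀ μ μ' : ProbabilityMeasure C(unitInterval, ℂ), IsLimH μ → IsLimH μ' →
      ∀ A : Set C(unitInterval, ℂ), MeasurableSet A →
      (μ : Measure C(unitInterval, ℂ)) A ≤ (μ' : Measure C(unitInterval, ℂ)) A := by
    intro μ μ' hμ hμ' A hA
    set ρ : ℝ := min R.A (min R.B R.H) with hρ
    have h0 : 0 < ρ := lt_min R.hA (lt_min R.hB R.hH)
    have hn : ∀ n : ℕ, (μ : Measure C(unitInterval, ℂ)) A ≤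
        (μ' : Measure C(unitInterval, ℂ)) A + ((μ' : Measure C(unitInterval, ℂ)) {f | (n : ℝ) ≤ ‖f‖} +
          (μ : Measure C(unitInterval, ℂ)) {f | (n : ℝ) ≤ ‖f‖}) := by
      intro n
      have hlam : (0 : ℝ) < ((n : ℝ) + 1) / ρ := by positivity
      have hr : (n : ℝ) < ((n : ℝ) + 1) / ρ * ρ := by
        rw [div_mul_cancel₀ _ h0.ne']
        linarith
      obtain ⟨ν, hν, h1⟩ := unq_aux hJ R ρ _ n h0 (min_le_left _ _)
        ((min_le_right _ _).trans (min_le_left _ _))
        ((min_le_right _ _).trans (min_le_right _ _)) hlam hr μ hμ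
      obtain ⟨ν', hν', h2⟩ := unq_aux hJ R ρ _ n h0 (min_le_left _ _)
        ((min_le_right _ _).trans (min_le_left _ _))
        ((min_le_right _ _).trans (min_le_right _ _)) hlam hr μ' hμ'
      have hνν : ν = ν' := huniq ν ν' hν hν'
      subst hνν
      calc (μ : Measure C(unitInterval, ℂ)) A
          ≤ (ν : Measure H984N.X) (rv (((n : ℝ) + 1) / ρ) ⁻¹' A) +
            (μ : Measure C(unitInterval, ℂ)) {f | (n : ℝ) ≤ ‖f‖} := (h1 A hA).1
        _ ≤ ((μ' : Measure C(unitInterval, ℂ)) A +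
              (μ' : Measure C(unitInterval, ℂ)) {f | (n : ℝ) ≤ ‖f‖}) +
            (μ : Measure C(unitInterval, ℂ)) {f | (n : ℝ) ≤ ‖f‖} := by
            gcongr
            exact (h2 A hA).2
        _ = _ := by rw [add_assoc]
    have ht : Tendsto (fun n : ℕ => (μ' : Measure C(unitInterval, ℂ)) A +
        ((μ' : Measure C(unitInterval, ℂ)) {f | (n : ℝ) ≤ ‖f‖} +
          (μ : Measure C(unitInterval, ℂ)) {f | (n : ℝ) ≤ ‖f‖})) atTop
        (𝓝 ((μ' : Measure C(unitInterval, ℂ)) A + (0 + 0))) :=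
      ((tail_tendsto μ').add (tail_tendsto μ)).const_add _
    rw [add_zero, add_zero] at ht
    exact ge_of_tendsto' ht hn
  apply Subtype.ext
  ext A hA
  exact le_antisymm (key μ μ' hμ hμ' A hA) (key μ' μ hμ' hμ A hA)

end Pool.Agent.L0h89.HT
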